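import Pool.Agent.N906.QP.Stm
import Pool.Agent.N170.KG_FING

/-!
# QP/FINJ: the final joint theorem over a number field (helper401)

The translation of heights and counting functions is that of `Pool/Agent/N170/KG_FING.lean` (helper170).
-/

set_option autoImplicit false
set_option linter.unusedSectionVars false

namespace Pool.Agent.N401.QP

open NumberField IsDedekindDomain Finset Filter Topology Module
open Pool.Agent.H691R3 Pool.Agent.W223.AK Pool.Agent.N906.KG Pool.Agent.N170.KG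
open Pool.Agent.N906.NT (Gs Gs_pos Gs_mono log_small Gs_tendsto squeeze)

section points

variable {K : Type} [Field K] [NumberField K] {q : ℕ}

/-! ### The counting function -/

/-- the counting function of one point and the radical -/
theorem ncl_bounds {T : Set (Pr K)} {S : Finset (Pr K)} (hTS : T ⊆ ↑S) {α : Fin q → Fin 2 → K}
    (hα : ∀ i, α i ≠ 0) {P : Projectivization K (Fin 2 → K)} (hP : P.rep 1 ≠ 0)
    (hoP : Off1 α P) {A : Fin q → Idl K} (hA : IsP S (pr α) (P.rep 0 / P.rep 1) A) (l : Fin q) :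
    rl (A l) ≤ finrank ℚ K * ncl T (α l) P ∧
      finrank ℚ K * ncl T (α l) P ≤ rl (A l) + ∑ v ∈ S, Real.log (Nv v) := by
  classical
  have hd : (0 : ℝ) < finrank ℚ K := fin_pos
  set f : Pr K → ℝ := fun v => min (lv v (α l) P)
    (Real.log (Ideal.absNorm v.asIdeal : ℝ) / (finrank ℚ K : ℝ)) with hf
  set m : Pr K → ℝ := fun v => if v ∉ T then f v else 0 with hm
  have hfd : ∀ v, finrank ℚ K * f v = min
      (lam (Sum.inr v : Pl K) (aff (P.rep 0 / P.rep 1)) (pr α l)) (Real.log (Nv v)) := by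
    intro v
    rw [hf, mul_min_of_nonneg _ _ hd.le, mul_div_cancel₀ _ hd.ne', mul_comm, lv_eq v _ hP]
    rfl
  have hf0 : ∀ v, 0 ≤ finrank ℚ K * f v ∧ finrank ℚ K * f v ≤ Real.log (Nv v) := by
    intro v
    rw [hfd]
    refine ⟨le_min ?_ (log_Nv_pos v).le, min_le_right _ _⟩
    refine lamF_nonneg v (aff_ne_zero _) (Pool.Agent.R365.QP.pr_ne (hα l)) ?_
    have := of_rep hP hoP l
    show P.rep 0 / P.rep 1 * α l 1 - 1 * α l 0 ≠ 0
    rw [one_mul]
    exact this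
  have hout : ∀ v, v ∉ S → finrank ℚ K * m v = if v ∈ (A l).support then Real.log (Nv v) else 0 := by
    intro v hv
    have hvT : v ∉ T := fun h => hv (hTS h)
    rw [hm]
    simp only [hvT, not_false_eq_true, if_true]
    rw [hfd, hA.2 l v hv]
    have hl := log_Nv_pos v
    split_ifs with h
    · have h1 : 1 ≤ A l v := Nat.one_le_iff_ne_zero.2 (Finsupp.mem_support_iff.1 h)
      have h2 : (1 : ℝ) ≤ (A l v : ℝ) := by exact_mod_cast h1
      exact min_eq_right (by nlinarith)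
    · rw [Finsupp.notMem_support_iff.1 h, Nat.cast_zero, zero_mul]
      exact min_eq_left hl.le
  have hin : ∀ v, 0 ≤ finrank ℚ K * m v ∧ finrank ℚ K * m v ≤ Real.log (Nv v) := by
    intro v
    by_cases hvT : v ∉ T
    · have e : m v = f v := if_pos hvT
      rw [e]
      exact hf0 v
    · have e : m v = 0 := if_neg hvT
      rw [e, mul_zero]
      exact ⟨le_refl _, (log_Nv_pos v).le⟩
  have hdis : Disjoint (A l).support S := by
    rw [Finset.disjoint_left]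
    intro v hv hvS
    exact Finsupp.mem_support_iff.1 hv (hA.1 l v hvS)
  have hsupp : Function.support m ⊆ (((A l).support ∪ S : Finset (Pr K)) : Set (Pr K)) := by
    intro v hv
    rw [coe_union]
    by_contra hcon
    rw [Set.mem_union, not_or] at hcon
    have h1 := hout v hcon.2
    rw [if_neg (fun h => hcon.1 (mem_coe.2 h))] at h1
    exact hv ((mul_eq_zero.1 h1).resolve_left hd.ne')
  have hncl : ncl T (α l) P = ∑ᶠ v, m v := by
    unfold ncl
    refine finsum_congr fun v => ?_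
    rw [finsum_eq_if]
  have hsum : (finrank ℚ K : ℝ) * ncl T (α l) P = rl (A l) + ∑ v ∈ S, finrank ℚ K * m v := by
    have h1 : ncl T (α l) P = ∑ v ∈ (A l).support ∪ S, m v := by
      rw [hncl]
      exact finsum_eq_sum_of_support_subset _ hsupp
    rw [h1, mul_sum, sum_union hdis]
    congr 1
    unfold rl
    refine sum_congr rfl fun v hv => ?_
    rw [hout v (Finset.disjoint_left.1 hdis hv), if_pos hv]
  rw [hsum]
  constructor
  · have : 0 ≤ ∑ v ∈ S, finrank ℚ K * m v := sum_nonneg fun v _ => (hin v).1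
    linarith
  · have : ∑ v ∈ S, finrank ℚ K * m v ≤ ∑ v ∈ S, Real.log (Nv v) :=
      sum_le_sum fun v _ => (hin v).2
    linarith

lemma JV_sub {T : Set (Pr K)} {α : Fin q → Fin 2 → K} {κ : Fin q → ℝ} {c L : ℝ} :
    JV T α κ c (Real.exp L) ⊆ pts K (finrank ℚ K * L) := by
  rintro p ⟨-, h1, -⟩
  exact exp_hh.1 h1

lemma JV_finite (T : Set (Pr K)) (α : Fin q → Fin 2 → K) (κ : Fin q → ℝ) (c B : ℝ) :
    (JV T α κ c B).Finite := by
  rcases le_or_gt B 0 with hB | hB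
  · refine Set.Finite.subset Set.finite_empty ?_
    rintro p ⟨-, h1, -⟩
    exact absurd (Real.exp_pos (hh p)) (not_lt.2 (h1.trans hB))
  · rw [← Real.exp_log hB]
    exact (pts_finite K _).subset JV_sub

/-! ### The two bounds -/

theorem upperJ {κ₁ : ℝ} (h1 : S_BASQ K) (h2 : S_UPJ K q κ₁) (hq : 1 ≤ q) {T : Set (Pr K)}
    (hT : T.Finite) {α : Fin q → Fin 2 → K} {κ : Fin q → ℝ} (c : ℝ) (hα0 : ∀ i, α i ≠ 0)
    (hα : ∀ i j, i ≠ j → α i 0 * α j 1 - α i 1 * α j 0 ≠ 0) (hκ : ∀ l, 0 ≤ κ l)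
    (hκ0 : 0 < ∑ l, κ l) (hκ1 : ∑ l, κ l < κ₁) {ε : ℝ} (hε : 0 < ε) :
    ∃ X₀ : ℝ, 1 < X₀ ∧ ∀ L : ℝ, X₀ ≤ (finrank ℚ K : ℝ) * L →
      ((JV T α κ c (Real.exp L)).ncard : ℝ) ≤
        Real.exp ((2 - ∑ l, κ l) * (finrank ℚ K * L) + (1 + ε) *
          ∑ l, √(8 * κ l * (finrank ℚ K * L) / Real.log (finrank ℚ K * L))) + 1 := by
  classical
  have hd : (0 : ℝ) < finrank ℚ K := fin_pos
  have hA := al_pr hα0 hα
  obtain ⟨⟨S₁, hS₁⟩, hA2⟩ := h1 q (pr α) hq hA
  set S : Finset (Pr K) := S₁ ∪ hT.toFinset with hS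
  have hTS : T ⊆ ↑S := by
    intro v hv
    rw [hS, coe_union]
    exact Or.inr (mem_coe.2 (hT.mem_toFinset.2 hv))
  have hGα := hS₁ S subset_union_left
  obtain ⟨C₁, -, hA3⟩ := hA2 _ hGα
  obtain ⟨X₀, hX₀, hup⟩ := h2 (pr α) S κ ε (finrank ℚ K * |c|) hA hGα hκ hκ0 hκ1 hε
    (by positivity)
  refine ⟨X₀, hX₀, fun L hL => ?_⟩
  set X : ℝ := finrank ℚ K * L with hX
  have hfin := JV_finite T α κ c (Real.exp L)
  obtain ⟨U, hU⟩ : ∃ U : Finset (Projectivization K (Fin 2 → K)), U = hfin.toFinset := ⟨_, rfl⟩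
  have hUm : ∀ p, p ∈ U ↔ p ∈ JV T α κ c (Real.exp L) := fun p => by
    rw [hU, Set.Finite.mem_toFinset]
  have hcard : (JV T α κ c (Real.exp L)).ncard = U.card := by
    rw [hU, Set.ncard_eq_toFinset_card _ hfin]
  rw [hcard]
  set U₁ := U.filter (fun p => p.rep 1 ≠ 0) with hU₁
  set U₂ := U.filter (fun p => p.rep 1 = 0) with hU₂
  have hsplit : U.card ≤ U₁.card + U₂.card := by
    have h : U ⊆ U₁ ∪ U₂ := by
      intro p hp
      rw [mem_union, hU₁, hU₂, mem_filter, mem_filter]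
      by_cases g1 : p.rep 1 = 0
      · exact Or.inr ⟨hp, g1⟩
      · exact Or.inl ⟨hp, g1⟩
    exact (card_le_card h).trans (card_union_le _ _)
  have hc2 : (U₂.card : ℝ) ≤ 1 := by
    have h : U₂.card ≤ 1 := by
      rw [card_le_one]
      intro a ha b hb
      exact rep_inf (mem_filter.1 ha).2 (mem_filter.1 hb).2
    exact_mod_cast h
  have hc1 : (U₁.card : ℝ) ≤ Real.exp ((2 - ∑ l, κ l) * X + (1 + ε) *
      ∑ l, √(8 * κ l * X / Real.log X)) := by
    rw [← card_image_of_injOn (s := U₁) (f := fun p => p.rep 0 / p.rep 1)]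
    · refine hup X _ hL ?_
      intro x hx
      obtain ⟨p, hp, rfl⟩ := mem_image.1 hx
      obtain ⟨g0, g1⟩ := mem_filter.1 hp
      have k1 : Height.logHeight p.rep ≤ X := JV_sub ((hUm p).1 g0)
      obtain ⟨m1, -, m3⟩ := (hUm p).1 g0
      have o1 := of_rep g1 m1
      obtain ⟨P, hP⟩ := (hA3 _ o1).1
      refine ⟨o1, ?_, P, hP, fun l => ?_⟩
      · rw [← ht_rep]
        exact k1
      · refine (ncl_bounds hTS hα0 g1 m1 hP l).1.trans ?_
        rw [← ht_rep]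
        have m4 := mul_le_mul_of_nonneg_left (m3 l) hd.le
        refine m4.trans ?_
        unfold hh
        have e1 : (finrank ℚ K : ℝ) * ((1 - κ l) * (Height.logHeight p.rep / finrank ℚ K) + c) =
            (1 - κ l) * Height.logHeight p.rep + finrank ℚ K * c := by
          field_simp
        rw [e1]
        have := mul_le_mul_of_nonneg_left (le_abs_self c) hd.le
        linarith
    · intro p hp p' hp' e
      obtain ⟨-, g1⟩ := mem_filter.1 (mem_coe.1 hp)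
      obtain ⟨-, g3⟩ := mem_filter.1 (mem_coe.1 hp')
      exact rep_eq_of g1 g3 e
  have hs : (U.card : ℝ) ≤ U₁.card + U₂.card := by exact_mod_cast hsplit
  linarith

theorem lowerJ (h1 : S_BASQ K) (h3 : S_LOJ K) (hq : 1 ≤ q) {T : Set (Pr K)}
    (hT : T.Finite) {α : Fin q → Fin 2 → K} {κ : Fin q → ℝ} (c : ℝ) (hα0 : ∀ i, α i ≠ 0)
    (hα : ∀ i j, i ≠ j → α i 0 * α j 1 - α i 1 * α j 0 ≠ 0) (hκ : ∀ l, 0 ≤ κ l)
    (hκ0 : 0 < ∑ l, κ l) (hκ1 : ∑ l, κ l < 1) {ε : ℝ} (hε : 0 < ε) (hε1 : ε < 1) :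
    ∃ X₀ : ℝ, 1 < X₀ ∧ ∀ L : ℝ, X₀ ≤ (finrank ℚ K : ℝ) * L →
      Real.exp ((2 - ∑ l, κ l) * (finrank ℚ K * L) + (1 - ε) *
          ∑ l, √(8 * κ l * (finrank ℚ K * L) / Real.log (finrank ℚ K * L))) ≤
        ((JV T α κ c (Real.exp L)).ncard : ℝ) := by
  classical
  have hd : (0 : ℝ) < finrank ℚ K := fin_pos
  have hA := al_pr hα0 hα
  obtain ⟨⟨S₁, hS₁⟩, hA2⟩ := h1 q (pr α) hq hA
  set S : Finset (Pr K) := S₁ ∪ hT.toFinset with hS
  have hTS : T ⊆ ↑S := by
    intro v hv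
    rw [hS, coe_union]
    exact Or.inr (mem_coe.2 (hT.mem_toFinset.2 hv))
  have hGα := hS₁ S subset_union_left
  have hC₀ : 0 ≤ ∑ v ∈ S, Real.log (Nv v) + finrank ℚ K * |c| :=
    add_nonneg (sum_nonneg fun v _ => (log_Nv_pos v).le) (by positivity)
  obtain ⟨X₀, hX₀, hlo⟩ := h3 q (pr α) S κ ε
    (∑ v ∈ S, Real.log (Nv v) + finrank ℚ K * |c|) hq hA hGα hκ hκ0 hκ1 hε hε1 hC₀
  refine ⟨X₀, hX₀, fun L hL => ?_⟩
  set X : ℝ := finrank ℚ K * L with hX
  obtain ⟨F, hF, hcard⟩ := hlo X hL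
  refine hcard.trans ?_
  have hfin := JV_finite T α κ c (Real.exp L)
  have hsub : ((F.image pt : Finset _) : Set _) ⊆ JV T α κ c (Real.exp L) := by
    intro P hP
    obtain ⟨p, hp, rfl⟩ := mem_image.1 (mem_coe.1 hP)
    obtain ⟨o1, k1, -, P, hPP, htr⟩ := hF p hp
    obtain ⟨n1, e1⟩ := pt_rep p
    have l1 : Height.logHeight (pt p).rep = hr (aff p) := by rw [ht_rep, e1]
    have f1 : Off1 α (pt p) := off_of n1 (by rw [e1]; exact o1)
    refine ⟨f1, exp_hh.2 (by rw [l1]; exact k1), fun l => ?_⟩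
    have h5 := (ncl_bounds hTS hα0 n1 f1 (by rw [e1]; exact hPP) l).2
    have h6 : (finrank ℚ K : ℝ) * ncl T (α l) (pt p) ≤
        finrank ℚ K * ((1 - κ l) * hh (pt p) + c) := by
      unfold hh
      rw [l1]
      have e3 : (finrank ℚ K : ℝ) * ((1 - κ l) * (hr (aff p) / finrank ℚ K) + c) =
          (1 - κ l) * hr (aff p) + finrank ℚ K * c := by
        field_simp
      rw [e3]
      have := mul_le_mul_of_nonneg_left (neg_abs_le c) hd.le
      linarith [htr l]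
    exact le_of_mul_le_mul_left h6 hd
  have h5 := Set.ncard_le_ncard hsub hfin
  rw [Set.ncard_coe_finset, card_image_of_injective _ pt_inj] at h5
  exact_mod_cast h5

end points

/-! ### The limit -/

theorem final_limitJ {d c₁ E : ℝ} (hc₁ : 0 ≤ c₁) (hd : 0 < d) (hE : 0 < E) (N : ℝ → ℝ)
    (hU : ∀ ε : ℝ, 0 < ε → ∃ X₀ : ℝ, 1 < X₀ ∧ ∀ L : ℝ, X₀ ≤ d * L →
      N L ≤ Real.exp (E * (d * L) + (1 + ε) * (c₁ *
        (1 * (d * L) / Real.log (d * L)) ^ ((1 : ℝ) / 2))) + 1)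
    (hL : ∀ ε : ℝ, 0 < ε → ε < 1 → ∃ X₀ : ℝ, 1 < X₀ ∧ ∀ L : ℝ, X₀ ≤ d * L →
      Real.exp (E * (d * L) + (1 - ε) * (c₁ *
        (1 * (d * L) / Real.log (d * L)) ^ ((1 : ℝ) / 2))) ≤ N L) :
    Tendsto (fun L : ℝ => (Real.log (N L) - (d * E) * L) / Gs ((1 : ℝ) / 2) L) atTop
      (𝓝 (c₁ * (1 * d) ^ ((1 : ℝ) / 2))) := by
  have hρ : (0 : ℝ) < 1 / 2 := by norm_num
  set A : ℝ := (1 * d) ^ ((1 : ℝ) / 2) with hA
  have hA0 : 0 < A := Real.rpow_pos_of_pos (by positivity) _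
  have hrat := ratio (k := 1) (by positivity) hd hρ
  rw [← hA] at hrat
  have hexp : 0 < d * E := by positivity
  have hGt := Gs_tendsto hρ
  -- the size of the second order term
  have hsec : ∀ η : ℝ, 0 < η → ∀ᶠ L : ℝ in atTop, 1 < L ∧ 0 < Gs (1 / 2) L ∧
      (1 * (d * L) / Real.log (d * L)) ^ ((1 : ℝ) / 2) ≤ (A + η) * Gs (1 / 2) L ∧
      (A - η) * Gs (1 / 2) L ≤ (1 * (d * L) / Real.log (d * L)) ^ ((1 : ℝ) / 2) := by
    intro η hη
    have g1 := hrat.eventually (gt_mem_nhds (show A < A + η by linarith))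
    have g2 := hrat.eventually (lt_mem_nhds (show A - η < A by linarith))
    filter_upwards [g1, g2, eventually_gt_atTop (1 : ℝ)] with L k1 k2 k3
    have hG := Gs_pos (ρ := 1 / 2) k3
    rw [div_lt_iff₀ hG] at k1
    rw [lt_div_iff₀ hG] at k2
    exact ⟨k3, hG, k1.le, k2.le⟩
  have hX : ∀ X₀ : ℝ, ∀ᶠ L : ℝ in atTop, X₀ ≤ d * L := fun X₀ =>
    (tendsto_id.const_mul_atTop hd).eventually_ge_atTop X₀
  refine squeeze (e := d * E) (c := c₁ * A) hρ N ?_ ?_
  · intro ε hε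
    obtain ⟨η, hη0, hη⟩ : ∃ η : ℝ, 0 < η ∧ (1 + η) * c₁ * (A + η) < c₁ * A + ε / 2 := by
      have hc : Tendsto (fun η : ℝ => (1 + η) * c₁ * (A + η)) (𝓝[>] 0)
          (𝓝 ((1 + 0) * c₁ * (A + 0))) := by
        refine tendsto_nhdsWithin_of_tendsto_nhds ?_
        exact (((tendsto_id.const_add 1).mul_const c₁).mul (tendsto_id.const_add A))
      rw [add_zero, add_zero, one_mul] at hc
      obtain ⟨η, g1, g2⟩ := ((hc.eventually (gt_mem_nhds
        (show c₁ * A < c₁ * A + ε / 2 by linarith))).and self_mem_nhdsWithin).exists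
      exact ⟨η, g2, g1⟩
    obtain ⟨X₀, hX₀, h⟩ := hU η hη0
    filter_upwards [hsec η hη0, hX X₀,
      hGt.eventually_ge_atTop (2 * Real.log 2 / ε)] with L ⟨k1, k2, k3, _⟩ k4 k6
    have h6 := h L k4
    have h7 : (1 + η) * (c₁ * (1 * (d * L) / Real.log (d * L)) ^ ((1 : ℝ) / 2)) ≤
        (c₁ * A + ε / 2) * Gs (1 / 2) L := by
      calc (1 + η) * (c₁ * (1 * (d * L) / Real.log (d * L)) ^ ((1 : ℝ) / 2)) =
          (1 + η) * c₁ * (1 * (d * L) / Real.log (d * L)) ^ ((1 : ℝ) / 2) := by ring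
        _ ≤ (1 + η) * c₁ * ((A + η) * Gs (1 / 2) L) :=
            mul_le_mul_of_nonneg_left k3 (by positivity)
        _ = (1 + η) * c₁ * (A + η) * Gs (1 / 2) L := by ring
        _ ≤ _ := mul_le_mul_of_nonneg_right hη.le k2.le
    have h8 : 0 ≤ (c₁ * A + ε / 2) * Gs (1 / 2) L := by positivity
    have h9 : 1 ≤ Real.exp (d * E * L + (c₁ * A + ε / 2) * Gs (1 / 2) L) := by
      refine Real.one_le_exp ?_
      have : 0 ≤ d * E * L := by positivity
      linarith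
    have h10 : Real.exp (E * (d * L) + (1 + η) * (c₁ *
        (1 * (d * L) / Real.log (d * L)) ^ ((1 : ℝ) / 2))) ≤
        Real.exp (d * E * L + (c₁ * A + ε / 2) * Gs (1 / 2) L) := by
      refine Real.exp_le_exp.2 ?_
      have e1 : E * (d * L) = d * E * L := by ring
      rw [e1]
      linarith
    have h11 : N L ≤ 2 * Real.exp (d * E * L + (c₁ * A + ε / 2) * Gs (1 / 2) L) := by
      linarith
    refine h11.trans ?_
    rw [mul_comm, exp_mul_two]
    refine Real.exp_le_exp.2 ?_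
    have h13 : Real.log 2 ≤ ε / 2 * Gs (1 / 2) L := by
      rw [div_le_iff₀ hε] at k6
      linarith
    nlinarith
  · intro ε hε
    obtain ⟨η, hη0, hη1, hη⟩ : ∃ η : ℝ, 0 < η ∧ η < 1 ∧ c₁ * A - ε / 2 < (1 - η) * c₁ * (A - η) := by
      have hc : Tendsto (fun η : ℝ => (1 - η) * c₁ * (A - η)) (𝓝[>] 0)
          (𝓝 ((1 - 0) * c₁ * (A - 0))) := by
        refine tendsto_nhdsWithin_of_tendsto_nhds ?_
        exact (((tendsto_id.const_sub 1).mul_const c₁).mul (tendsto_id.const_sub A))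
      rw [sub_zero, sub_zero, one_mul] at hc
      have h1 : ∀ᶠ η : ℝ in 𝓝[>] 0, η < 1 :=
        (tendsto_nhdsWithin_of_tendsto_nhds tendsto_id).eventually_lt_const one_pos
      obtain ⟨η, ⟨g1, g3⟩, g2⟩ := ((hc.eventually (lt_mem_nhds
        (show c₁ * A - ε / 2 < c₁ * A by linarith))).and h1 |>.and self_mem_nhdsWithin).exists
      exact ⟨η, g2, g3, g1⟩
    obtain ⟨X₀, hX₀, h⟩ := hL η hη0 hη1
    filter_upwards [hsec η hη0, hX X₀] with L ⟨k1, k2, _, k3⟩ k4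
    refine le_trans ?_ (h L k4)
    have h7 : (c₁ * A - ε / 2) * Gs (1 / 2) L ≤
        (1 - η) * (c₁ * (1 * (d * L) / Real.log (d * L)) ^ ((1 : ℝ) / 2)) := by
      have hn : 0 ≤ (1 - η) * c₁ := mul_nonneg (by linarith) hc₁
      calc (c₁ * A - ε / 2) * Gs (1 / 2) L ≤ (1 - η) * c₁ * (A - η) * Gs (1 / 2) L :=
            mul_le_mul_of_nonneg_right hη.le k2.le
        _ = (1 - η) * c₁ * ((A - η) * Gs (1 / 2) L) := by ring
        _ ≤ (1 - η) * c₁ * (1 * (d * L) / Real.log (d * L)) ^ ((1 : ℝ) / 2) :=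
            mul_le_mul_of_nonneg_left k3 hn
        _ = _ := by ring
    refine Real.exp_le_exp.2 ?_
    have e2 : E * (d * L) = d * E * L := by ring
    rw [e2]
    nlinarith

theorem finj (K : Type) [Field K] [NumberField K] (q : ℕ) (κ₁ : ℝ) (h1 : S_BASQ K)
    (h2 : S_UPJ K q κ₁) (h3 : S_LOJ K) : S_FINJ K q κ₁ := by
  intro T α κ c hT hq hα0 hα hκ hκ0 hκ1 hκ2
  refine ⟨fun B => JV_finite T α κ c B, ?_⟩
  have hd : (0 : ℝ) < finrank ℚ K := fin_pos
  have hc₁ : 0 ≤ ∑ l, √(8 * κ l) := sum_nonneg fun l _ => Real.sqrt_nonneg _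
  have hsum : ∀ X : ℝ, ∑ l, √(8 * κ l * X / Real.log X) =
      (∑ l, √(8 * κ l)) * (1 * X / Real.log X) ^ ((1 : ℝ) / 2) := by
    intro X
    rw [sum_mul]
    refine sum_congr rfl fun l _ => ?_
    rw [one_mul, ← Real.sqrt_eq_rpow, ← Real.sqrt_mul (by have := hκ l; positivity), mul_div_assoc]
  have h := final_limitJ (E := 2 - ∑ l, κ l) hc₁ (fin_pos (K := K)) (by linarith)
    (fun L => ((JV T α κ c (Real.exp L)).ncard : ℝ)) ?_ ?_
  · have h5 := h.comp Real.tendsto_log_atTop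
    have e1 : (∑ l, √(8 * κ l)) * (1 * (finrank ℚ K : ℝ)) ^ ((1 : ℝ) / 2) =
        ∑ l, √(8 * κ l * finrank ℚ K) := by
      rw [sum_mul]
      refine sum_congr rfl fun l _ => ?_
      rw [one_mul, ← Real.sqrt_eq_rpow, ← Real.sqrt_mul (by have := hκ l; positivity)]
    rw [e1] at h5
    refine h5.congr' ?_
    filter_upwards [eventually_gt_atTop (0 : ℝ)] with B hB
    simp only [Function.comp_apply, Gs]
    rw [Real.exp_log hB, ← Real.sqrt_eq_rpow]
  · intro ε hε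
    obtain ⟨X₀, hX₀, hu⟩ := upperJ h1 h2 (by omega) hT c hα0 hα hκ hκ0 hκ1 hε
    refine ⟨X₀, hX₀, fun L hL => ?_⟩
    have := hu L hL
    rw [hsum] at this
    exact this
  · intro ε hε hε1
    obtain ⟨X₀, hX₀, hu⟩ := lowerJ h1 h3 (by omega) hT c hα0 hα hκ hκ0 hκ2 hε hε1
    refine ⟨X₀, hX₀, fun L hL => ?_⟩
    have := hu L hL
    rw [hsum] at this
    exact this

end Pool.Agent.N401.QP
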