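import Pool.Agent.N604.MW.Stm10

/-!
# Project AD (helper604), part AASY (helper401): the asymptotic formula for the smoothed count
-/

set_option autoImplicit false
set_option linter.all false

namespace Pool.Agent.N401.AD

open Finset MeasureTheory Filter Pool.Agent.N604.MW

/-- tangents of a power -/
theorem tangent {x y θ : ℝ} (hx : 0 < x) (hy : 0 ≤ y) (hθ : 1 ≤ θ) :
    x ^ θ + θ * x ^ (θ - 1) * (y - x) ≤ y ^ θ := by
  have h1 : (-1 : ℝ) ≤ y / x - 1 := by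
    have : 0 ≤ y / x := div_nonneg hy hx.le
    linarith
  have h2 := one_add_mul_self_le_rpow_one_add h1 hθ
  rw [add_sub_cancel, Real.div_rpow hy hx.le] at h2
  have h3 : 0 < x ^ θ := Real.rpow_pos_of_pos hx θ
  have h4 := mul_le_mul_of_nonneg_right h2 h3.le
  rw [div_mul_cancel₀ _ h3.ne'] at h4
  have h5 : x ^ θ = x ^ (θ - 1) * x := by
    rw [Real.rpow_sub_one hx.ne']
    field_simp
  have h6 : (1 + θ * (y / x - 1)) * x ^ θ = x ^ θ + θ * x ^ (θ - 1) * (y - x) := by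
    have h7 : (y / x - 1) * x ^ θ = x ^ (θ - 1) * (y - x) := by
      rw [h5]
      field_simp
    calc (1 + θ * (y / x - 1)) * x ^ θ = x ^ θ + θ * ((y / x - 1) * x ^ θ) := by ring
      _ = _ := by rw [h7]; ring
  rwa [h6] at h4

/-- the scale -/
theorem seqs (k : ℕ) (hk : 1 ≤ k) (c0 : ℝ) (hc0 : 0 < c0) : ∃ (ν : ℕ → ℕ) (K1 : ℝ), 0 < K1 ∧
    (∀ n : ℕ, 4 * (n : ℝ) ≤ c0 * (2 : ℝ) ^ ((ν n : ℝ) * k)) ∧
    (∀ᶠ n : ℕ in atTop, (2 : ℝ) ^ ((ν n : ℝ) * k) ≤ K1 * n) ∧ Tendsto ν atTop atTop := by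
  classical
  have hpow : ∀ ν : ℕ, (2 : ℝ) ^ ((ν : ℝ) * k) = (2 : ℝ) ^ (ν * k) := by
    intro ν
    rw [← Real.rpow_natCast]
    push_cast
    rfl
  have hex : ∀ n : ℕ, ∃ ν : ℕ, 4 * (n : ℝ) ≤ c0 * (2 : ℝ) ^ (ν * k) := by
    intro n
    obtain ⟨ν, hν⟩ := pow_unbounded_of_one_lt (4 * (n : ℝ) / c0) (one_lt_two (α := ℝ))
    refine ⟨ν, ?_⟩
    have h1 : (2 : ℝ) ^ ν ≤ 2 ^ (ν * k) := by
      refine pow_le_pow_right₀ one_le_two ?_
      exact Nat.le_mul_of_pos_right ν hk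
    have h2 : 4 * (n : ℝ) / c0 ≤ 2 ^ (ν * k) := hν.le.trans h1
    rw [div_le_iff₀ hc0] at h2
    linarith
  have htend : Tendsto (fun n => Nat.find (hex n)) atTop atTop := by
    refine tendsto_atTop.2 fun b => ?_
    obtain ⟨n0, hn0⟩ := exists_nat_gt (c0 * (2 : ℝ) ^ (b * k))
    filter_upwards [eventually_ge_atTop n0] with n hn
    by_contra hcon
    push Not at hcon
    have h1 := Nat.find_spec (hex n)
    have h2 : (2 : ℝ) ^ (Nat.find (hex n) * k) ≤ 2 ^ (b * k) :=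
      pow_le_pow_right₀ one_le_two (Nat.mul_le_mul_right k hcon.le)
    have h3 : (n0 : ℝ) ≤ n := by exact_mod_cast hn
    have h4 := mul_le_mul_of_nonneg_left h2 hc0.le
    have h5 : (0 : ℝ) ≤ n := Nat.cast_nonneg n
    linarith
  refine ⟨fun n => Nat.find (hex n), 2 ^ k * 4 / c0, by positivity, ?_, ?_, htend⟩
  · intro n
    rw [hpow]
    exact Nat.find_spec (hex n)
  · filter_upwards [htend.eventually_ge_atTop 1] with n hn
    rw [hpow]
    have h1 : Nat.find (hex n) - 1 < Nat.find (hex n) := by omega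
    have h2 := Nat.find_min (hex n) h1
    push Not at h2
    have h3 : (2 : ℝ) ^ (Nat.find (hex n) * k) = 2 ^ k * 2 ^ ((Nat.find (hex n) - 1) * k) := by
      rw [← pow_add]
      congr 1
      obtain ⟨m, hm⟩ : ∃ m, Nat.find (hex n) = m + 1 := ⟨Nat.find (hex n) - 1, by omega⟩
      rw [hm, Nat.add_sub_cancel]
      ring
    rw [h3]
    have h4 : (2 : ℝ) ^ ((Nat.find (hex n) - 1) * k) ≤ 4 * n / c0 := by
      rw [le_div_iff₀ hc0]
      linarith
    calc (2 : ℝ) ^ k * 2 ^ ((Nat.find (hex n) - 1) * k) ≤ 2 ^ k * (4 * n / c0) :=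
          mul_le_mul_of_nonneg_left h4 (by positivity)
      _ = _ := by ring

theorem two_pow (ν k : ℕ) (hk : 1 ≤ k) (x : ℝ) :
    (2 : ℝ) ^ ((ν : ℝ) * x) = ((2 : ℝ) ^ ((ν : ℝ) * k)) ^ (x / k) := by
  rw [← Real.rpow_mul (by norm_num)]
  congr 1
  have : (k : ℝ) ≠ 0 := by
    have : (1 : ℝ) ≤ k := by exact_mod_cast hk
    positivity
  field_simp

/-- the domain of summation does not matter -/
theorem RG_congr {s : ℕ} (f : Fin s → ℤ → ℝ) (hf : ∀ i x, 0 ≤ f i x) (n : ℤ)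
    (A B : Fin s → Finset ℤ) (hA : ∀ i x, f i x < n + 1 → x ∈ A i)
    (hB : ∀ i x, f i x < n + 1 → x ∈ B i) : RG A f n = RG B f n := by
  classical
  have key : ∀ A B : Fin s → Finset ℤ, (∀ i x, f i x < n + 1 → x ∈ A i) →
      (∀ i x, f i x < n + 1 → x ∈ B i) → RG A f n =
      ∑ x ∈ Fintype.piFinset (fun i => A i ∩ B i), Lam (∑ i, f i (x i) - n) := by
    intro A B hA hB
    unfold RG
    symm
    refine Finset.sum_subset ?_ ?_
    · intro x hx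
      rw [Fintype.mem_piFinset] at hx ⊢
      exact fun i => (Finset.mem_inter.1 (hx i)).1
    · intro x hx hx'
      have h1 : ¬ ∑ i, f i (x i) < n + 1 := by
        intro hlt
        apply hx'
        rw [Fintype.mem_piFinset]
        intro i
        have h2 : f i (x i) ≤ ∑ j, f j (x j) :=
          Finset.single_le_sum (f := fun j => f j (x j)) (fun j _ => hf j (x j))
            (Finset.mem_univ i)
        exact Finset.mem_inter.2 ⟨hA i _ (lt_of_le_of_lt h2 hlt), hB i _ (lt_of_le_of_lt h2 hlt)⟩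
      push Not at h1
      unfold Lam
      refine max_eq_left ?_
      have h2 : (1 : ℝ) ≤ |∑ i, f i (x i) - n| := by
        refine le_trans ?_ (le_abs_self _)
        linarith
      linarith
  rw [key A B hA hB, key B A hB hA]
  congr 1
  refine congrArg _ ?_
  funext i
  exact Finset.inter_comm _ _

theorem tend_M {M : ℕ → ℝ} {c0 : ℝ} (hc0 : 0 < c0) (h : ∀ n : ℕ, 4 * (n : ℝ) ≤ c0 * M n) :
    Tendsto M atTop atTop := by
  have h1 : Tendsto (fun n : ℕ => (4 / c0) * (n : ℝ)) atTop atTop :=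
    tendsto_natCast_atTop_atTop.const_mul_atTop (by positivity)
  refine tendsto_atTop_mono (fun n => ?_) h1
  rw [div_mul_eq_mul_div, div_le_iff₀ hc0]
  linarith [h n]

theorem tend_neg {y : ℝ} (hy : 0 < y) : Tendsto (fun n : ℕ => (n : ℝ) ^ (-y)) atTop (nhds 0) :=
  (tendsto_rpow_neg_atTop hy).comp tendsto_natCast_atTop_atTop

theorem tend_W {M W : ℕ → ℝ} {a K1 : ℝ} (ha : 0 < a) (ha1 : a < 1) (hK : 0 < K1)
    (hM0 : ∀ n, 0 ≤ M n) (hM : ∀ᶠ n : ℕ in atTop, M n ≤ K1 * n) (hW0 : ∀ n, 0 ≤ W n)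
    (hW : ∀ n, W n ≤ 2 * M n ^ a) : Tendsto (fun n : ℕ => W n / n) atTop (nhds 0) := by
  have h1 : Tendsto (fun n : ℕ => 2 * K1 ^ a * (n : ℝ) ^ (-(1 - a))) atTop (nhds 0) := by
    have := (tend_neg (y := 1 - a) (by linarith)).const_mul (2 * K1 ^ a)
    rwa [mul_zero] at this
  refine squeeze_zero' (Eventually.of_forall fun n => div_nonneg (hW0 n) (Nat.cast_nonneg n)) ?_ h1
  filter_upwards [hM, eventually_gt_atTop 0] with n hn hn0
  have hn0' : (0 : ℝ) < n := by exact_mod_cast hn0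
  rw [div_le_iff₀ hn0']
  have h2 : M n ^ a ≤ (K1 * n) ^ a := Real.rpow_le_rpow (hM0 n) hn ha.le
  rw [Real.mul_rpow hK.le hn0'.le] at h2
  have h3 : (n : ℝ) ^ (-(1 - a)) * n = (n : ℝ) ^ a := by
    rw [← Real.rpow_add_one hn0'.ne']
    congr 1
    ring
  calc W n ≤ 2 * M n ^ a := hW n
    _ ≤ 2 * (K1 ^ a * (n : ℝ) ^ a) := by linarith
    _ = 2 * K1 ^ a * (n : ℝ) ^ (-(1 - a)) * n := by rw [mul_assoc, mul_assoc, h3]

theorem tend_inv {M W : ℕ → ℝ} {a : ℝ} (ha : 0 < a) (hM : Tendsto M atTop atTop)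
    (hW : ∀ n, M n ^ a ≤ W n) : Tendsto (fun n : ℕ => (W n)⁻¹) atTop (nhds 0) := by
  have h1 : Tendsto (fun n => M n ^ a) atTop atTop := (tendsto_rpow_atTop ha).comp hM
  exact (tendsto_atTop_mono hW h1).inv_tendsto_atTop

theorem tend_G {M W : ℕ → ℝ} {a c0 β κ : ℝ} (ha : 0 < a) (hc0 : 0 < c0) (hβ : 0 ≤ β)
    (hM : ∀ n : ℕ, 4 * (n : ℝ) ≤ c0 * M n) (hM0 : ∀ n, 0 < M n) (hW : ∀ n, M n ^ a ≤ W n)
    (hWn : ∀ᶠ n : ℕ in atTop, W n ≤ n) (hneg : β - a - κ < 0) :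
    Tendsto (fun n : ℕ => ((n : ℝ) + W n) ^ β / (W n * (n : ℝ) ^ κ)) atTop (nhds 0) := by
  have h1 : Tendsto (fun n : ℕ => 2 ^ β * (c0 / 4) ^ a * (n : ℝ) ^ (-(κ + a - β))) atTop
      (nhds 0) := by
    have := (tend_neg (y := κ + a - β) (by linarith)).const_mul (2 ^ β * (c0 / 4) ^ a)
    rwa [mul_zero] at this
  have hWpos : ∀ n, 0 < W n := fun n => lt_of_lt_of_le (Real.rpow_pos_of_pos (hM0 n) a) (hW n)
  refine squeeze_zero' (Eventually.of_forall fun n => ?_) ?_ h1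
  · have := hWpos n
    have h2 : (0 : ℝ) ≤ n := Nat.cast_nonneg n
    positivity
  filter_upwards [hWn, eventually_gt_atTop 0] with n hn hn0
  have hn0' : (0 : ℝ) < n := by exact_mod_cast hn0
  have hW0 := hWpos n
  rw [div_le_iff₀ (by positivity)]
  have h2 : ((n : ℝ) + W n) ^ β ≤ (2 * n) ^ β :=
    Real.rpow_le_rpow (by positivity) (by linarith) hβ
  rw [Real.mul_rpow (by norm_num) hn0'.le] at h2
  have h3 : (4 / c0 * n) ^ a ≤ W n := by
    refine le_trans (Real.rpow_le_rpow (by positivity) ?_ ha.le) (hW n)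
    rw [div_mul_eq_mul_div, div_le_iff₀ hc0]
    linarith [hM n]
  rw [Real.mul_rpow (by positivity) hn0'.le] at h3
  have h4 : (c0 / 4) ^ a * (4 / c0) ^ a = 1 := by
    rw [← Real.mul_rpow (by positivity) (by positivity)]
    have : c0 / 4 * (4 / c0) = 1 := by field_simp
    rw [this, Real.one_rpow]
  have h5 : (n : ℝ) ^ (-(κ + a - β)) * (n : ℝ) ^ a * (n : ℝ) ^ κ = (n : ℝ) ^ β := by
    rw [← Real.rpow_add hn0', ← Real.rpow_add hn0']
    congr 1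
    ring
  calc ((n : ℝ) + W n) ^ β ≤ 2 ^ β * (n : ℝ) ^ β := h2
    _ = 2 ^ β * ((c0 / 4) ^ a * (4 / c0) ^ a) *
        ((n : ℝ) ^ (-(κ + a - β)) * (n : ℝ) ^ a * (n : ℝ) ^ κ) := by rw [h4, h5, mul_one]
    _ = (2 ^ β * (c0 / 4) ^ a * (n : ℝ) ^ (-(κ + a - β))) *
        (((4 / c0) ^ a * (n : ℝ) ^ a) * (n : ℝ) ^ κ) := by ring
    _ ≤ (2 ^ β * (c0 / 4) ^ a * (n : ℝ) ^ (-(κ + a - β))) * (W n * (n : ℝ) ^ κ) := by
        refine mul_le_mul_of_nonneg_left ?_ (by positivity)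
        exact mul_le_mul_of_nonneg_right h3 (by positivity)

/-- the upper and the lower bound for the average -/
theorem tend_U {W : ℕ → ℝ} {κ Vθ C : ℝ} {G : ℕ → ℝ}
    (h1 : Tendsto (fun n : ℕ => W n / n) atTop (nhds 0))
    (h2 : Tendsto (fun n : ℕ => (W n)⁻¹) atTop (nhds 0)) (h3 : Tendsto G atTop (nhds 0)) :
    Tendsto (fun n : ℕ => Vθ * (1 + W n / n) ^ κ * (1 + (W n)⁻¹) + 2 * C * G n) atTop
      (nhds Vθ) ∧
    Tendsto (fun n : ℕ => Vθ * (1 - (W n)⁻¹) - 2 * C * G n) atTop (nhds Vθ) := by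
  constructor
  · have h4 : Tendsto (fun n : ℕ => (1 + W n / n) ^ κ) atTop (nhds ((1 + 0) ^ κ)) :=
      (h1.const_add 1).rpow_const (Or.inl (by norm_num))
    have h5 := ((h4.const_mul Vθ).mul (h2.const_add 1)).add (h3.const_mul (2 * C))
    simpa using h5
  · have h5 := ((h2.const_sub 1).const_mul Vθ).sub (h3.const_mul (2 * C))
    simpa using h5

theorem card_BX (ν : ℕ) : ((BX ν).card : ℝ) ≤ 2 * 2 ^ ν := by
  unfold BX
  rw [Int.card_Ioo]
  have h1 : (((2 ^ ν : ℤ) - -(2 ^ ν : ℤ) - 1).toNat : ℤ) ≤ 2 * 2 ^ ν := by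
    rw [Int.toNat_of_nonneg]
    · linarith
    · have : (1 : ℤ) ≤ 2 ^ ν := one_le_pow₀ (by norm_num)
      linarith
  have h2 : ((((2 ^ ν : ℤ) - -(2 ^ ν : ℤ) - 1).toNat : ℤ) : ℝ) ≤ ((2 * 2 ^ ν : ℤ) : ℝ) := by
    exact_mod_cast h1
  push_cast at h2 ⊢
  exact h2

theorem mem_BX {k ν : ℕ} (hk : 1 ≤ k) {x : ℤ} (h : |(x : ℝ)| ^ k < (2 : ℝ) ^ ((ν : ℝ) * k)) :
    x ∈ BX ν := by
  have h1 : (2 : ℝ) ^ ((ν : ℝ) * k) = ((2 : ℝ) ^ ν) ^ k := by
    rw [Real.rpow_mul (by norm_num), Real.rpow_natCast, Real.rpow_natCast]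
  rw [h1] at h
  have h2 : |(x : ℝ)| < 2 ^ ν := lt_of_pow_lt_pow_left₀ k (by positivity) h
  rw [abs_lt] at h2
  unfold BX
  rw [Finset.mem_Ioo]
  constructor
  · have := h2.1
    exact_mod_cast this
  · have := h2.2
    exact_mod_cast this

theorem win_up {Sm F1 F0 V θ n W C X Y Z X1 Z1 : ℝ} (c4 : Sm ≤ F1 - F0) (b1 : F1 - V * X ≤ C * Z)
    (b2 : -(C * Z1) ≤ F0 - V * X1) (m : C * Z1 ≤ C * Z)
    (k : V * (X + θ * Y * (n - 1 - (n + W))) ≤ V * X1) :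
    Sm ≤ V * θ * Y * (W + 1) + 2 * C * Z := by
  have e : V * (X + θ * Y * (n - 1 - (n + W))) = V * X - V * θ * Y * (W + 1) := by ring
  linarith

theorem win_lo {Sm F1 F0 V θ n W C X Y Z X1 Z1 Zn : ℝ} (c3 : F1 - F0 ≤ Sm)
    (b3 : -(C * Z1) ≤ F1 - V * X1) (b4 : F0 - V * X ≤ C * Zn) (m3 : C * Z1 ≤ C * Z)
    (m4 : C * Zn ≤ C * Z) (k : V * (X + θ * Y * (n + W - 1 - n)) ≤ V * X1) :
    V * θ * Y * (W - 1) - 2 * C * Z ≤ Sm := by
  have e : V * (X + θ * Y * (n + W - 1 - n)) = V * X + V * θ * Y * (W - 1) := by ring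
  linarith

theorem fin_lo {R Q Er L N T ε : ℝ} (z : -Er ≤ R - Q) (v : L * N ≤ Q)
    (w : -(ε / 2) * N ≤ (L - T) * N) (e : Er ≤ ε / 2 * N) : -(ε * N) ≤ R - T * N := by
  have h : (L - T) * N = L * N - T * N := by ring
  linarith

theorem fin_up {R Q Er U N T ε : ℝ} (z : R - Q ≤ Er) (v : Q ≤ U * N)
    (w : (U - T) * N ≤ ε / 2 * N) (e : Er ≤ ε / 2 * N) : R - T * N ≤ ε * N := by
  have h : (U - T) * N = U * N - T * N := by ring
  linarith

theorem sum_err {Er A I m a b P : ℝ} (h : Er = A + 2 * I + 2 * (m * b)) (h1 : A ≤ P * (m * a))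
    (h2 : I ≤ m * b) : Er ≤ m * (P * a + 4 * b) := by
  have e : m * (P * a + 4 * b) = P * (m * a) + 2 * (m * b) + 2 * (m * b) := by ring
  rw [e, h]
  linarith

/-- AASY -/
theorem aasy (h1 : S_ACIRC) (h2 : S_AWIN) : S_AASY := by
  classical
  intro s k f c0 V C δ δ' hk hks hc0 hV hδ hδ1 hδ' hf hfc hCF hG ε hε
  obtain ⟨ν0, hν0⟩ := hG
  obtain ⟨ν, K1, hK1, hν1, hν2, hν3⟩ := seqs k hk c0 hc0
  have hkR : (1 : ℝ) ≤ k := by exact_mod_cast hk
  have hk0 : (0 : ℝ) < k := by linarith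
  have hsk : (k : ℝ) < s := by exact_mod_cast hks
  obtain ⟨θ, hθ⟩ : ∃ θ : ℝ, θ = (s : ℝ) / k := ⟨_, rfl⟩
  obtain ⟨κ, hκ⟩ : ∃ κ : ℝ, κ = θ - 1 := ⟨_, rfl⟩
  obtain ⟨β, hβ⟩ : ∃ β : ℝ, β = ((s : ℝ) - 1) / k := ⟨_, rfl⟩
  obtain ⟨a, had⟩ : ∃ a : ℝ, a = 1 - 3 * δ / k := ⟨_, rfl⟩
  rw [← hθ, ← hκ]
  rw [← hθ, ← hβ] at hCF
  have hθ1 : 1 < θ := by
    rw [hθ, lt_div_iff₀ hk0]
    linarith
  have hκ0 : 0 < κ := by rw [hκ]; linarith
  have hβ0 : 0 ≤ β := by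
    rw [hβ]
    exact div_nonneg (by linarith) hk0.le
  have h3δ : 3 * δ / k ≤ 3 * δ := div_le_self (by linarith) hkR
  have h3δ' : 0 < 3 * δ / k := by positivity
  have ha : 0 < a := by rw [had]; linarith
  have ha1 : a < 1 := by rw [had]; linarith
  have hneg : β - a - κ < 0 := by
    have : β - a - κ = (3 * δ - 1) / k := by
      rw [hβ, had, hκ, hθ]
      field_simp
      ring
    rw [this]
    exact div_neg_of_neg_of_pos (by linarith) hk0
  obtain ⟨M, hMd⟩ : ∃ M : ℕ → ℝ, M = fun n => (2 : ℝ) ^ ((ν n : ℝ) * k) := ⟨_, rfl⟩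
  have hMn : ∀ n, (2 : ℝ) ^ ((ν n : ℝ) * k) = M n := fun n => by rw [hMd]
  simp only [hMn] at hν1 hν2
  have hM1 : ∀ n, 1 ≤ M n := fun n => by
    rw [hMd]
    exact Real.one_le_rpow one_le_two (by positivity)
  have hM0 : ∀ n, 0 < M n := fun n => lt_of_lt_of_le one_pos (hM1 n)
  obtain ⟨W, hWd⟩ : ∃ W : ℕ → ℕ, W = fun n => ⌈M n ^ a⌉₊ := ⟨_, rfl⟩
  have hW1 : ∀ n, M n ^ a ≤ W n := fun n => by
    rw [hWd]
    exact Nat.le_ceil _
  have hMa : ∀ n, 1 ≤ M n ^ a := fun n => Real.one_le_rpow (hM1 n) ha.le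
  have hW2 : ∀ n, (W n : ℝ) ≤ 2 * M n ^ a := fun n => by
    have h3 := (Nat.ceil_lt_add_one (zero_le_one.trans (hMa n))).le
    rw [hWd]
    linarith [hMa n]
  have hWone : ∀ n, (1 : ℝ) ≤ W n := fun n => (hMa n).trans (hW1 n)
  have hMt : Tendsto M atTop atTop := tend_M hc0 hν1
  have t1 : Tendsto (fun n : ℕ => (W n : ℝ) / n) atTop (nhds 0) :=
    tend_W (W := fun n => (W n : ℝ)) ha ha1 hK1 (fun n => (hM0 n).le) hν2
      (fun n => Nat.cast_nonneg _) hW2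
  have t2 : Tendsto (fun n : ℕ => ((W n : ℝ))⁻¹) atTop (nhds 0) :=
    tend_inv (W := fun n => (W n : ℝ)) ha hMt hW1
  have eW : ∀ᶠ n : ℕ in atTop, (W n : ℝ) ≤ n := by
    have h3 := t1.eventually (gt_mem_nhds (zero_lt_one (α := ℝ)))
    filter_upwards [h3, eventually_gt_atTop 0] with n hn hn0
    have hn0' : (0 : ℝ) < n := by exact_mod_cast hn0
    rw [div_lt_one hn0'] at hn
    exact hn.le
  have t3 := tend_G (M := M) (W := fun n => (W n : ℝ)) (κ := κ) ha hc0 hβ0 hν1 hM0 hW1 eW hneg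
  obtain ⟨tU, tL⟩ := tend_U (κ := κ) (Vθ := V * θ) (C := C) t1 t2 t3
  have t4 : Tendsto (fun n => K1 ^ κ * (32 * 2 ^ s * M n ^ (-(δ / k)) + 4 * M n ^ (-(δ' / k))))
      atTop (nhds 0) := by
    have h3 := ((tendsto_rpow_neg_atTop (y := δ / k) (by positivity)).comp hMt).const_mul
      (32 * 2 ^ s : ℝ)
    have h4 := ((tendsto_rpow_neg_atTop (y := δ' / k) (by positivity)).comp hMt).const_mul
      (4 : ℝ)
    have h5 := (h3.add h4).const_mul (K1 ^ κ)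
    simpa using h5
  have t5 : Tendsto (fun n => M n ^ (1 / (4 * (k : ℝ)))) atTop atTop :=
    (tendsto_rpow_atTop (by positivity)).comp hMt
  have eU := (tU.sub_const (V * θ)).abs.eventually (gt_mem_nhds (show |V * θ - V * θ| < ε / 2 by
    rw [sub_self, abs_zero]; positivity))
  have eL := (tL.sub_const (V * θ)).abs.eventually (gt_mem_nhds (show |V * θ - V * θ| < ε / 2 by
    rw [sub_self, abs_zero]; positivity))
  have eE := t4.eventually (gt_mem_nhds (show (0 : ℝ) < ε / 2 by positivity))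
  have hev : ∀ᶠ n : ℕ in atTop, ∀ A : Fin s → Finset ℤ, (∀ i x, f i x < n + 1 → x ∈ A i) →
      |RG A f n - V * θ * (n : ℝ) ^ κ| ≤ ε * (n : ℝ) ^ κ := by
    filter_upwards [hν2, eW, hν3.eventually_ge_atTop ν0, eventually_ge_atTop 2,
      t5.eventually_ge_atTop (c0 / 2), eU, eL, eE] with n e1 e2 e3 e4 e5 e6 e7 e8 A hA
    have hn2 : (2 : ℝ) ≤ n := by exact_mod_cast e4
    have hn0 : (0 : ℝ) < n := by linarith
    have hWn := hWone n
    have hWn0 : (0 : ℝ) < W n := by linarith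
    have hWnat : 1 ≤ W n := by exact_mod_cast hWn
    have hC0 : 0 ≤ C := by
      have h3 := (abs_nonneg _).trans (hCF 1 le_rfl)
      rwa [Real.one_rpow, mul_one] at h3
    -- the sets of summation
    have hB : ∀ (i : Fin s) (x : ℤ), f i x < (n : ℝ) + W n → x ∈ BX (ν n) := by
      intro i x hx
      refine mem_BX hk ?_
      rw [hMn]
      have h3 := hfc i x
      have h4 := hν1 n
      have h5 : c0 * |(x : ℝ)| ^ k < c0 * M n := by linarith
      exact lt_of_mul_lt_mul_left h5 hc0.le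
    have hRG : RG A f n = RG (fun _ => BX (ν n)) f n := by
      refine RG_congr f hf n A _ (fun i x hx => hA i x ?_) fun i x hx => hB i x ?_
      · rwa [Int.cast_natCast] at hx
      · rw [Int.cast_natCast] at hx
        linarith
    obtain ⟨g1, g2⟩ := hν0 (ν n) e3
    have p0 : (2 : ℝ) ^ ((ν n : ℝ) * (-(k : ℝ) + δ)) = M n ^ ((-(k : ℝ) + δ) / k) := by
      rw [two_pow _ k hk, hMn]
    have p1 : (2 : ℝ) ^ ((ν n : ℝ) * ((s : ℝ) - k - δ')) = M n ^ (κ - δ' / k) := by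
      rw [two_pow _ k hk, hMn, hκ, hθ]
      congr 1
      field_simp
    have p2 : (2 : ℝ) ^ ((ν n : ℝ) * ((k : ℝ) + 1 / 4)) = M n * M n ^ (1 / (4 * (k : ℝ))) := by
      rw [two_pow _ k hk, hMn]
      conv_rhs => rw [← Real.rpow_one (M n), ← Real.rpow_mul (hM0 n).le, ← Real.rpow_add (hM0 n)]
      congr 1
      field_simp
    have c1 := h1 s (fun _ => BX (ν n)) f n (W n) ((2 : ℝ) ^ ((ν n : ℝ) * (-(k : ℝ) + δ)))
      ((2 : ℝ) ^ (-((k : ℝ) * ν n / 2))) ((2 : ℝ) ^ ((ν n : ℝ) * ((s : ℝ) - k - δ'))) hWnat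
      (by positivity) (by
        refine Real.rpow_le_rpow_of_exponent_le one_le_two ?_
        have : (0 : ℝ) ≤ ν n := Nat.cast_nonneg _
        nlinarith) (by
        intro h hh
        refine g2 _ ?_
        have h3 : (h : ℝ) ≤ W n := by exact_mod_cast hh.le
        have h4 : (0 : ℝ) ≤ h := Nat.cast_nonneg _
        push_cast
        rw [abs_of_nonneg (by positivity), p2]
        have h5 := hν1 n
        have h6 := mul_le_mul_of_nonneg_left e5 (hM0 n).le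
        nlinarith)
    have c2 := h2 s (fun _ => BX (ν n)) f n (W n) hWnat hf hB
    obtain ⟨c3, c4⟩ := c2
    obtain ⟨Sm, hSm⟩ : ∃ Sm : ℝ, Sm = ∑ h ∈ range (W n), RG (fun _ => BX (ν n)) f (n + h) :=
      ⟨_, rfl⟩
    rw [← hSm] at c1 c3 c4
    rw [hRG]
    obtain ⟨Er, hEr⟩ : ∃ Er : ℝ, Er = 16 * (W n : ℝ) * ((2 : ℝ) ^ ((ν n : ℝ) * (-(k : ℝ) + δ))) ^ 2 *
      (∏ i : Fin s, (((fun _ => BX (ν n)) i : Finset ℤ).card : ℝ)) +
      2 * (∫ t in Arc ((2 : ℝ) ^ ((ν n : ℝ) * (-(k : ℝ) + δ))) ((2 : ℝ) ^ (-((k : ℝ) * ν n / 2))),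
        ∏ i, ‖SG (BX (ν n)) (f i) t‖) + 2 * (2 : ℝ) ^ ((ν n : ℝ) * ((s : ℝ) - k - δ')) := ⟨_, rfl⟩
    have c1' : |RG (fun _ => BX (ν n)) f n - Sm / W n| ≤ Er := by
      rw [hEr]
      exact c1
    have hMκ : M n ^ κ ≤ K1 ^ κ * (n : ℝ) ^ κ := by
      rw [← Real.mul_rpow hK1.le hn0.le]
      exact Real.rpow_le_rpow (hM0 n).le e1 hκ0.le
    have hErb : Er ≤ ε / 2 * (n : ℝ) ^ κ := by
      have q1 : (∏ i : Fin s, (((fun _ => BX (ν n)) i : Finset ℤ).card : ℝ)) ≤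
          2 ^ s * M n ^ θ := by
        rw [Finset.prod_const, Finset.card_univ, Fintype.card_fin]
        have h3 : ((BX (ν n)).card : ℝ) ^ s ≤ (2 * 2 ^ (ν n)) ^ s :=
          pow_le_pow_left₀ (Nat.cast_nonneg _) (card_BX _) s
        have h4 : ((2 : ℝ) * 2 ^ (ν n)) ^ s = 2 ^ s * M n ^ θ := by
          rw [mul_pow]
          congr 1
          rw [hθ, ← hMn, ← two_pow _ k hk, ← Real.rpow_natCast, ← Real.rpow_natCast,
            ← Real.rpow_mul (by norm_num)]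
        rw [← h4]
        exact h3
      have q2 : 16 * (W n : ℝ) * ((2 : ℝ) ^ ((ν n : ℝ) * (-(k : ℝ) + δ))) ^ 2 *
          (∏ i : Fin s, (((fun _ => BX (ν n)) i : Finset ℤ).card : ℝ)) ≤
          32 * 2 ^ s * (M n ^ κ * M n ^ (-(δ / k))) := by
        rw [p0]
        have h3 : M n ^ a * (M n ^ ((-(k : ℝ) + δ) / k)) ^ 2 * M n ^ θ =
            M n ^ κ * M n ^ (-(δ / k)) := by
          rw [pow_two, ← Real.rpow_add (hM0 n), ← Real.rpow_add (hM0 n), ← Real.rpow_add (hM0 n),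
            ← Real.rpow_add (hM0 n)]
          congr 1
          rw [had, hκ, hθ]
          field_simp
          ring
        have h4 : 0 ≤ (M n ^ ((-(k : ℝ) + δ) / k)) ^ 2 := sq_nonneg _
        calc 16 * (W n : ℝ) * (M n ^ ((-(k : ℝ) + δ) / k)) ^ 2 *
              (∏ i : Fin s, (((fun _ => BX (ν n)) i : Finset ℤ).card : ℝ))
            ≤ 16 * (2 * M n ^ a) * (M n ^ ((-(k : ℝ) + δ) / k)) ^ 2 * (2 ^ s * M n ^ θ) := by
              refine mul_le_mul ?_ q1 ?_ ?_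
              · refine mul_le_mul_of_nonneg_right ?_ h4
                linarith [hW2 n]
              · exact Finset.prod_nonneg fun i _ => Nat.cast_nonneg _
              · have := (hMa n)
                positivity
          _ = 32 * 2 ^ s * (M n ^ a * (M n ^ ((-(k : ℝ) + δ) / k)) ^ 2 * M n ^ θ) := by ring
          _ = _ := by rw [h3]
      have q3 : M n ^ (κ - δ' / k) = M n ^ κ * M n ^ (-(δ' / k)) := by
        rw [← Real.rpow_add (hM0 n)]
        congr 1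
      rw [p1] at g1
      rw [q3] at g1
      rw [p1, q3] at hEr
      have q4 : Er ≤ M n ^ κ * (32 * 2 ^ s * M n ^ (-(δ / k)) + 4 * M n ^ (-(δ' / k))) :=
        sum_err hEr q2 g1
      refine q4.trans ?_
      have q5 : 0 ≤ 32 * 2 ^ s * M n ^ (-(δ / k)) + 4 * M n ^ (-(δ' / k)) := by
        have := Real.rpow_pos_of_pos (hM0 n) (-(δ / k))
        have := Real.rpow_pos_of_pos (hM0 n) (-(δ' / k))
        positivity
      calc M n ^ κ * (32 * 2 ^ s * M n ^ (-(δ / k)) + 4 * M n ^ (-(δ' / k)))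
          ≤ (K1 ^ κ * (n : ℝ) ^ κ) * (32 * 2 ^ s * M n ^ (-(δ / k)) + 4 * M n ^ (-(δ' / k))) :=
            mul_le_mul_of_nonneg_right hMκ q5
        _ = (K1 ^ κ * (32 * 2 ^ s * M n ^ (-(δ / k)) + 4 * M n ^ (-(δ' / k)))) * (n : ℝ) ^ κ := by
            ring
        _ ≤ ε / 2 * (n : ℝ) ^ κ :=
            mul_le_mul_of_nonneg_right e8.le (Real.rpow_nonneg hn0.le _)
    -- the average
    have hnW : (0 : ℝ) < (n : ℝ) + W n := by positivity
    have hn1 : (1 : ℝ) ≤ n := by linarith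
    have b1 := abs_le.1 (hCF ((n : ℝ) + W n) (by linarith))
    have b2 := abs_le.1 (hCF ((n : ℝ) - 1) (by linarith))
    have b3 := abs_le.1 (hCF ((n : ℝ) + W n - 1) (by linarith))
    have b4 := abs_le.1 (hCF (n : ℝ) hn1)
    have m2 : ((n : ℝ) - 1) ^ β ≤ ((n : ℝ) + W n) ^ β :=
      Real.rpow_le_rpow (by linarith) (by linarith) hβ0
    have m3 : ((n : ℝ) + W n - 1) ^ β ≤ ((n : ℝ) + W n) ^ β :=
      Real.rpow_le_rpow (by linarith) (by linarith) hβ0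
    have m4 : (n : ℝ) ^ β ≤ ((n : ℝ) + W n) ^ β :=
      Real.rpow_le_rpow (by linarith) (by linarith) hβ0
    have m2' := mul_le_mul_of_nonneg_left m2 hC0
    have m3' := mul_le_mul_of_nonneg_left m3 hC0
    have m4' := mul_le_mul_of_nonneg_left m4 hC0
    have k1 := tangent hnW (show (0 : ℝ) ≤ (n : ℝ) - 1 by linarith) hθ1.le
    have k2 := tangent hn0 (show (0 : ℝ) ≤ (n : ℝ) + W n - 1 by linarith) hθ1.le
    rw [← hκ] at k1 k2
    have k1' := mul_le_mul_of_nonneg_left k1 hV.le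
    have k2' := mul_le_mul_of_nonneg_left k2 hV.le
    have u1 : Sm ≤ V * θ * ((n : ℝ) + W n) ^ κ * (W n + 1) + 2 * C * ((n : ℝ) + W n) ^ β :=
      win_up c4 b1.2 b2.1 m2' k1'
    have u2 : V * θ * (n : ℝ) ^ κ * (W n - 1) - 2 * C * ((n : ℝ) + W n) ^ β ≤ Sm :=
      win_lo c3 b3.1 b4.2 m3' m4' k2'
    have nκ : 0 < (n : ℝ) ^ κ := Real.rpow_pos_of_pos hn0 κ
    have v0 : ((n : ℝ) + W n) ^ κ = (n : ℝ) ^ κ * (1 + (W n : ℝ) / n) ^ κ := by
      rw [← Real.mul_rpow hn0.le (by positivity)]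
      congr 1
      field_simp
    have v1 : Sm / W n ≤ (V * θ * (1 + (W n : ℝ) / n) ^ κ * (1 + ((W n : ℝ))⁻¹) +
        2 * C * (((n : ℝ) + W n) ^ β / (W n * (n : ℝ) ^ κ))) * (n : ℝ) ^ κ := by
      rw [div_le_iff₀ hWn0]
      refine u1.trans (le_of_eq ?_)
      rw [v0]
      field_simp
    have v2 : (V * θ * (1 - ((W n : ℝ))⁻¹) -
        2 * C * (((n : ℝ) + W n) ^ β / (W n * (n : ℝ) ^ κ))) * (n : ℝ) ^ κ ≤ Sm / W n := by
      rw [le_div_iff₀ hWn0]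
      refine le_trans (le_of_eq ?_) u2
      field_simp
    have w1 := (abs_lt.1 e6).2
    have w2 := (abs_lt.1 e7).1
    have w1' := mul_le_mul_of_nonneg_right w1.le nκ.le
    have w2' := mul_le_mul_of_nonneg_right w2.le nκ.le
    have z1 := abs_le.1 c1'
    rw [abs_le]
    exact ⟨fin_lo z1.1 v2 w2' hErb, fin_up z1.2 v1 w1' hErb⟩
  obtain ⟨n0, hn0⟩ := eventually_atTop.1 hev
  exact ⟨n0, hn0⟩

end Pool.Agent.N401.AD
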