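import Pool.Agent.N661.JM.Stm

/-!
# JM/POL (helper401): polarisation of the cubic and quartic moments
-/

set_option autoImplicit false
open MeasureTheory Filter Topology

namespace Pool.Agent.N401.JM

open Pool.Agent.N661.JM (S_POL)

noncomputable section

/-! ### the algebra -/

/-- the signs -/
def TT : Fin 8 → Fin 4 → ℝ := ![![1, 1, 1, 1], ![1, 1, 1, -1], ![1, 1, -1, 1], ![1, 1, -1, -1],
  ![1, -1, 1, 1], ![1, -1, 1, -1], ![1, -1, -1, 1], ![1, -1, -1, -1]]

/-- the products of the signs -/
def sg : Fin 8 → ℝ := ![1, -1, -1, 1, -1, 1, 1, -1]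

theorem pol4 (x : Fin 4 → ℝ) : ∏ i, x i = 1 / 192 * ∑ k, sg k * (∑ j, TT k j * x j) ^ 4 := by
  rw [Fin.sum_univ_eight, Fin.prod_univ_four]
  simp only [Fin.sum_univ_four, TT, sg]
  simp
  ring

theorem pol2 (K : Fin 4 → Fin 4 → ℝ) (hK : ∀ i j, K j i = K i j) :
    1 / 192 * ∑ k, sg k * (3 * (∑ i, ∑ j, TT k i * TT k j * K i j) ^ 2) =
      K 0 1 * K 2 3 + K 0 2 * K 1 3 + K 0 3 * K 1 2 := by
  rw [Fin.sum_univ_eight]
  simp only [Fin.sum_univ_four, TT, sg]
  rw [hK 0 1, hK 0 2, hK 0 3, hK 1 2, hK 1 3, hK 2 3]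
  simp
  ring

/-- the signs, three variables -/
def T3 : Fin 4 → Fin 3 → ℝ := ![![1, 1, 1], ![1, 1, -1], ![1, -1, 1], ![1, -1, -1]]

/-- the products of the signs -/
def sg3 : Fin 4 → ℝ := ![1, -1, -1, 1]

theorem pol3 (x : Fin 3 → ℝ) : ∏ i, x i = 1 / 24 * ∑ k, sg3 k * (∑ j, T3 k j * x j) ^ 3 := by
  rw [Fin.sum_univ_four, Fin.prod_univ_three]
  simp only [Fin.sum_univ_three, T3, sg3]
  simp
  ring

/-! ### integrability -/

section

variable {E : Type} [MeasurableSpace E] {μ : Measure E}

/-- measurable functions with a fourth moment -/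
def GG (μ : Measure E) (f : E → ℝ) : Prop := Measurable f ∧ Integrable (fun e => f e ^ 4) μ

theorem GG.prod {f g h k : E → ℝ} (hf : GG μ f) (hg : GG μ g) (hh : GG μ h) (hk : GG μ k) :
    Integrable (fun e => f e * g e * h e * k e) μ := by
  refine (((hf.2.add hg.2).add hh.2).add hk.2).mono'
    (((hf.1.mul hg.1).mul hh.1).mul hk.1).aestronglyMeasurable ?_
  refine Eventually.of_forall fun e => ?_
  show |f e * g e * h e * k e| ≤ f e ^ 4 + g e ^ 4 + h e ^ 4 + k e ^ 4
  have key : ∀ a b : ℝ, |a * b| ≤ (a ^ 2 + b ^ 2) / 2 := by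
    intro a b
    rw [abs_le]
    constructor <;> nlinarith [sq_nonneg (a + b), sq_nonneg (a - b)]
  have h1 := key (f e * g e) (h e * k e)
  have h2 := key (f e ^ 2) (g e ^ 2)
  have h3 := key (h e ^ 2) (k e ^ 2)
  have e1 : f e * g e * h e * k e = (f e * g e) * (h e * k e) := by ring
  rw [e1]
  have h2' := (le_abs_self _).trans h2
  have h3' := (le_abs_self _).trans h3
  nlinarith [sq_nonneg (f e), pow_two_nonneg (f e ^ 2), pow_two_nonneg (g e ^ 2),
    pow_two_nonneg (h e ^ 2), pow_two_nonneg (k e ^ 2)]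

theorem GG.one [IsFiniteMeasure μ] : GG μ fun _ => 1 :=
  ⟨measurable_const, integrable_const _⟩

theorem GG.cm {f : E → ℝ} (hf : GG μ f) (c : ℝ) : GG μ fun e => c * f e := by
  refine ⟨hf.1.const_mul c, ?_⟩
  simp_rw [mul_pow]
  exact hf.2.const_mul _

theorem GG.add {f g : E → ℝ} (hf : GG μ f) (hg : GG μ g) : GG μ fun e => f e + g e := by
  refine ⟨hf.1.add hg.1, ?_⟩
  refine ((hf.2.add hg.2).const_mul 8).mono' ((hf.1.add hg.1).pow_const 4).aestronglyMeasurable ?_
  refine Eventually.of_forall fun e => ?_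
  show |(f e + g e) ^ 4| ≤ 8 * (f e ^ 4 + g e ^ 4)
  rw [abs_of_nonneg (by positivity)]
  have h := Even.add_pow_le (n := 4) (a := f e) (b := g e) (by decide)
  norm_num at h
  exact h

theorem GG.zero : GG μ fun _ => 0 := by
  refine ⟨measurable_const, ?_⟩
  simp

theorem GG.sum {n : ℕ} {f : Fin n → E → ℝ} (hf : ∀ i, GG μ (f i)) (α : Fin n → ℝ) :
    GG μ fun e => ∑ i, α i * f i e := by
  classical
  have h : ∀ s : Finset (Fin n), GG μ fun e => ∑ i ∈ s, α i * f i e := by
    intro s
    induction s using Finset.induction_on with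
    | empty => simpa using GG.zero
    | insert i s hi ih =>
      simp_rw [Finset.sum_insert hi]
      exact ((hf i).cm _).add ih
  exact h _

/-- substitution -/
theorem sub {d n : ℕ} (X : Fin d → ℝ) (v : Fin n → Fin d) (t : Fin n → ℝ) :
    ∑ j, t j * X (v j) = ∑ i, (∑ j, if v j = i then t j else 0) * X i := by
  simp_rw [Finset.sum_mul]
  rw [Finset.sum_comm]
  refine Finset.sum_congr rfl fun j _ => ?_
  rw [Finset.sum_eq_single (v j)]
  · simp
  · intro b _ hb
    rw [if_neg (Ne.symm hb), zero_mul]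
  · intro h
    exact absurd (Finset.mem_univ _) h

end

theorem POL : S_POL := by
  intro d E _ μ _ X hm h4 hc hq
  have hX : ∀ i, GG μ (X i) := fun i => ⟨hm i, h4 i⟩
  constructor
  · intro i j k
    set v : Fin 3 → Fin d := ![i, j, k] with hv
    have e : ∀ e, X i e * X j e * X k e =
        1 / 24 * ∑ m, sg3 m * (∑ j, T3 m j * X (v j) e) ^ 3 := by
      intro e
      rw [← pol3 fun m => X (v m) e, Fin.prod_univ_three]
      rfl
    simp_rw [e]
    rw [integral_const_mul, integral_finsetSum]
    · have e2 : ∀ m : Fin 4, ∫ e, sg3 m * (∑ j, T3 m j * X (v j) e) ^ 3 ∂μ = 0 := by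
        intro m
        rw [integral_const_mul]
        simp_rw [fun e => sub (fun i => X i e) v (T3 m)]
        rw [hc, mul_zero]
      simp_rw [e2]
      simp
    · intro m _
      have hg := GG.sum (fun m => hX (v m)) (T3 m)
      refine ((hg.prod hg hg GG.one).congr (Eventually.of_forall fun e => ?_)).const_mul _
      show _ * _ * _ * 1 = _
      ring
  · intro i j k l
    set v : Fin 4 → Fin d := ![i, j, k, l] with hv
    have e : ∀ e, X i e * X j e * X k e * X l e =
        1 / 192 * ∑ m, sg m * (∑ j, TT m j * X (v j) e) ^ 4 := by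
      intro e
      rw [← pol4 fun m => X (v m) e, Fin.prod_univ_four]
      rfl
    simp_rw [e]
    rw [integral_const_mul, integral_finsetSum]
    · have hp : ∀ a b, Integrable (fun e => X a e * X b e) μ := by
        intro a b
        refine ((hX a).prod (hX b) GG.one GG.one).congr (Eventually.of_forall fun e => ?_)
        show _ * _ * 1 * 1 = _
        ring
      have e2 : ∀ m : Fin 8, ∫ e, sg m * (∑ j, TT m j * X (v j) e) ^ 4 ∂μ =
          sg m * (3 * (∑ a, ∑ b, TT m a * TT m b * ∫ e, X (v a) e * X (v b) e ∂μ) ^ 2) := by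
        intro m
        rw [integral_const_mul]
        congr 1
        have e3 : ∫ e, (∑ j, TT m j * X (v j) e) ^ 2 ∂μ =
            ∑ a, ∑ b, TT m a * TT m b * ∫ e, X (v a) e * X (v b) e ∂μ := by
          have e4 : ∀ e, (∑ j, TT m j * X (v j) e) ^ 2 =
              ∑ a, ∑ b, TT m a * TT m b * (X (v a) e * X (v b) e) := by
            intro e
            rw [sq, Finset.sum_mul_sum]
            refine Finset.sum_congr rfl fun i _ => Finset.sum_congr rfl fun j _ => ?_
            ring
          simp_rw [e4]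
          rw [integral_finsetSum _ fun a _ => integrable_finsetSum _ fun b _ =>
            (hp _ _).const_mul _]
          refine Finset.sum_congr rfl fun a _ => ?_
          rw [integral_finsetSum _ fun b _ => (hp _ _).const_mul _]
          refine Finset.sum_congr rfl fun b _ => ?_
          rw [integral_const_mul]
        rw [← e3]
        simp_rw [fun e => sub (fun i => X i e) v (TT m)]
        exact hq _
      simp_rw [e2]
      rw [pol2 (fun a b => ∫ e, X (v a) e * X (v b) e ∂μ) fun a b => by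
        simp_rw [mul_comm]]
      rfl
    · intro m _
      have hg := GG.sum (fun m => hX (v m)) (TT m)
      exact hg.2.const_mul _

end

end Pool.Agent.N401.JM
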