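import Mathlib
import Pool.Agent.N404.KL.Stm

/-!
# KL/FOUR (helper401): Fourier expansion of an even function on the cube
-/

set_option autoImplicit false

namespace Pool.Agent.N401.KLFOUR

open Finset Classical
open Pool.Agent.N404.KL (sg)

theorem sg_not (b : Bool) : sg (!b) = - sg b := by
  cases b <;> simp [sg]

theorem expand {J : Type} [Fintype J] [DecidableEq J] (u : (J → Bool) → ℝ) (r : J → ℝ)
    (T : Finset J) :
    ∑ e, ∑ e', u e * u e' * ∏ j ∈ T, (1 + r j * sg (e j) * sg (e' j)) =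
      ∑ S ∈ T.powerset, (∏ j ∈ S, r j) * (∑ e, u e * ∏ j ∈ S, sg (e j)) ^ 2 := by
  have h1 : ∀ e e' : J → Bool, u e * u e' * ∏ j ∈ T, (1 + r j * sg (e j) * sg (e' j)) =
      ∑ S ∈ T.powerset, (∏ j ∈ S, r j) * ((u e * ∏ j ∈ S, sg (e j)) *
        (u e' * ∏ j ∈ S, sg (e' j))) := by
    intro e e'
    rw [Finset.prod_one_add, Finset.mul_sum]
    refine Finset.sum_congr rfl fun S _ => ?_
    rw [Finset.prod_mul_distrib, Finset.prod_mul_distrib]
    ring
  simp_rw [h1]
  calc ∑ e, ∑ e', ∑ S ∈ T.powerset, (∏ j ∈ S, r j) * ((u e * ∏ j ∈ S, sg (e j)) *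
        (u e' * ∏ j ∈ S, sg (e' j)))
      = ∑ e, ∑ S ∈ T.powerset, ∑ e', (∏ j ∈ S, r j) * ((u e * ∏ j ∈ S, sg (e j)) *
        (u e' * ∏ j ∈ S, sg (e' j))) := Finset.sum_congr rfl fun e _ => Finset.sum_comm
    _ = ∑ S ∈ T.powerset, ∑ e, ∑ e', (∏ j ∈ S, r j) * ((u e * ∏ j ∈ S, sg (e j)) *
        (u e' * ∏ j ∈ S, sg (e' j))) := Finset.sum_comm
    _ = _ := by
        refine Finset.sum_congr rfl fun S _ => ?_
        rw [sq, Finset.sum_mul_sum, Finset.mul_sum]
        refine Finset.sum_congr rfl fun e _ => ?_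
        rw [Finset.mul_sum]

theorem odd_zero {J : Type} [Fintype J] [DecidableEq J] (g : (J → Bool) → ℝ)
    (hg : ∀ e, g (fun j => !(e j)) = g e) (S : Finset J) (hS : Odd S.card) :
    ∑ e, g e * ∏ j ∈ S, sg (e j) = 0 := by
  let τ : (J → Bool) ≃ (J → Bool) :=
    { toFun := fun e j => !(e j)
      invFun := fun e j => !(e j)
      left_inv := fun e => by funext j; simp
      right_inv := fun e => by funext j; simp }
  have h1 : ∑ e, g e * ∏ j ∈ S, sg (e j) = ∑ e, g (τ e) * ∏ j ∈ S, sg (τ e j) :=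
    (Equiv.sum_comp τ (fun e => g e * ∏ j ∈ S, sg (e j))).symm
  have h2 : ∀ e, g (τ e) * ∏ j ∈ S, sg (τ e j) = - (g e * ∏ j ∈ S, sg (e j)) := by
    intro e
    have h3 : g (τ e) = g e := hg e
    have h4 : ∏ j ∈ S, sg (τ e j) = - ∏ j ∈ S, sg (e j) := by
      have : ∀ j, sg (τ e j) = - sg (e j) := fun j => sg_not (e j)
      simp_rw [this]
      rw [Finset.prod_neg, hS.neg_one_pow]
      ring
    rw [h3, h4]; ring
  simp_rw [h2] at h1
  rw [Finset.sum_neg_distrib] at h1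
  linarith

theorem amgm {J : Type} (S : Finset J) (ρ : J → ℝ) (hρ : ∀ j, |ρ j| ≤ 1) (hS : 2 ≤ S.card) :
    ∏ j ∈ S, ρ j ≤ (∑ j ∈ S, ρ j ^ 2) / S.card := by
  have hn : (2 : ℝ) ≤ S.card := by exact_mod_cast hS
  have hn0 : (0 : ℝ) < S.card := by linarith
  have h1 := Real.geom_mean_le_arith_mean_weighted S (fun _ => 1 / (S.card : ℝ))
    (fun j => ρ j ^ 2) (fun i _ => by positivity)
    (by rw [Finset.sum_const, nsmul_eq_mul]; field_simp) (fun i _ => sq_nonneg _)
  have h2 : ∏ j ∈ S, |ρ j| ≤ ∏ j ∈ S, (ρ j ^ 2) ^ (1 / (S.card : ℝ)) := by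
    refine Finset.prod_le_prod (fun i _ => abs_nonneg _) fun j _ => ?_
    have h3 : (ρ j ^ 2) ^ (1 / (S.card : ℝ)) = |ρ j| ^ (2 / (S.card : ℝ)) := by
      rw [← sq_abs, ← Real.rpow_natCast, ← Real.rpow_mul (abs_nonneg _)]
      congr 1
      push_cast
      ring
    rw [h3]
    calc |ρ j| = |ρ j| ^ (1 : ℝ) := (Real.rpow_one _).symm
      _ ≤ |ρ j| ^ (2 / (S.card : ℝ)) := by
          refine Real.rpow_le_rpow_of_exponent_ge' (abs_nonneg _) (hρ j) (by positivity) ?_
          rw [div_le_one hn0]; exact hn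
  calc ∏ j ∈ S, ρ j ≤ |∏ j ∈ S, ρ j| := le_abs_self _
    _ = ∏ j ∈ S, |ρ j| := Finset.abs_prod _ _
    _ ≤ _ := h2
    _ ≤ _ := h1
    _ = (∑ j ∈ S, ρ j ^ 2) / S.card := by
        rw [← Finset.mul_sum]; ring

theorem integ {J : Type} [Fintype J] [DecidableEq J] (g : (J → Bool) → ℝ) (j : J) :
    (∫ s in (0 : ℝ)..1, ∑ e, ∑ e',
      g e * g e' * (sg (e j) * sg (e' j)) * ∏ k ∈ univ.erase j, (1 + s * sg (e k) * sg (e' k))) =
    ∑ S ∈ (univ : Finset (Finset J)), if j ∈ S then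
      (∑ e, g e * ∏ k ∈ S, sg (e k)) ^ 2 / S.card else 0 := by
  have h1 : ∀ s : ℝ, (∑ e, ∑ e',
      g e * g e' * (sg (e j) * sg (e' j)) *
        ∏ k ∈ univ.erase j, (1 + s * sg (e k) * sg (e' k))) =
      ∑ T ∈ (univ.erase j).powerset, s ^ T.card *
        (∑ e, (g e * sg (e j)) * ∏ k ∈ T, sg (e k)) ^ 2 := by
    intro s
    have := expand (fun e => g e * sg (e j)) (fun _ => s) (univ.erase j)
    simp only [Finset.prod_const] at this
    rw [← this]
    refine Finset.sum_congr rfl fun e _ => Finset.sum_congr rfl fun e' _ => ?_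
    ring
  simp_rw [h1]
  rw [intervalIntegral.integral_finsetSum]
  · have h2 : ∀ T ∈ (univ.erase j).powerset, (∫ s in (0 : ℝ)..1, s ^ T.card *
        (∑ e, (g e * sg (e j)) * ∏ k ∈ T, sg (e k)) ^ 2) =
        (∑ e, g e * ∏ k ∈ insert j T, sg (e k)) ^ 2 / ((insert j T).card : ℝ) := by
      intro T hT
      have hj : j ∉ T := by
        intro hj
        have := Finset.mem_powerset.1 hT hj
        simp at this
      rw [intervalIntegral.integral_mul_const, integral_pow, Finset.card_insert_of_notMem hj]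
      have h3 : ∀ e : J → Bool, ∏ k ∈ insert j T, sg (e k) = sg (e j) * ∏ k ∈ T, sg (e k) :=
        fun e => Finset.prod_insert hj
      simp_rw [h3]
      simp only [one_pow, ne_eq, Nat.add_eq_zero_iff, one_ne_zero, and_false, not_false_eq_true,
        zero_pow, sub_zero, ← mul_assoc]
      push_cast
      ring
    rw [Finset.sum_congr rfl h2, ← Finset.sum_filter]
    refine Finset.sum_nbij' (fun T => insert j T) (fun S => S.erase j) ?_ ?_ ?_ ?_ ?_
    · intro T _
      simp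
    · intro S _
      rw [Finset.mem_powerset]
      exact Finset.erase_subset_erase j (Finset.subset_univ S)
    · intro T hT
      have hj : j ∉ T := by
        intro hj
        have := Finset.mem_powerset.1 hT hj
        simp at this
      exact Finset.erase_insert hj
    · intro S hS
      exact Finset.insert_erase (Finset.mem_filter.1 hS).2
    · intro T _
      rfl
  · intro T _
    exact (Continuous.intervalIntegrable (by fun_prop) _ _)

theorem main0 (J : Type) [Fintype J] [DecidableEq J] (g : (J → Bool) → ℝ) (ρ : J → ℝ)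
  (hg : ∀ e, g (fun j => !(e j)) = g e) (hρ : ∀ j, |ρ j| ≤ 1) :
  ∑ e, ∑ e', g e * g e' * ∏ j, (1 + ρ j * sg (e j) * sg (e' j)) ≤
    (∑ e, g e) ^ 2 + ∑ j, ρ j ^ 2 * ∫ s in (0 : ℝ)..1, ∑ e, ∑ e',
      g e * g e' * (sg (e j) * sg (e' j)) * ∏ k ∈ univ.erase j, (1 + s * sg (e k) * sg (e' k)) := by
  rw [expand g ρ univ]
  simp_rw [integ g]
  have h1 : ∑ j, ρ j ^ 2 * (∑ S ∈ (univ : Finset (Finset J)), if j ∈ S then
      (∑ e, g e * ∏ k ∈ S, sg (e k)) ^ 2 / (S.card : ℝ) else 0) =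
      ∑ S ∈ (univ : Finset (Finset J)), (∑ j ∈ S, ρ j ^ 2) / S.card *
        (∑ e, g e * ∏ k ∈ S, sg (e k)) ^ 2 := by
    simp_rw [Finset.mul_sum]
    rw [Finset.sum_comm]
    refine Finset.sum_congr rfl fun S _ => ?_
    simp_rw [mul_ite, mul_zero]
    rw [← Finset.sum_filter, Finset.filter_mem_eq_inter, Finset.univ_inter, Finset.sum_div,
      Finset.sum_mul]
    refine Finset.sum_congr rfl fun j _ => ?_
    ring
  rw [h1]
  have h2 : (∑ e, g e) ^ 2 = ∑ S ∈ (univ : Finset (Finset J)), if S = ∅ then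
      (∑ e, g e * ∏ k ∈ S, sg (e k)) ^ 2 else 0 := by
    rw [Finset.sum_ite_eq']
    simp
  rw [h2, ← Finset.sum_add_distrib, Finset.powerset_univ]
  refine Finset.sum_le_sum fun S _ => ?_
  rcases Nat.eq_zero_or_pos S.card with h0 | h0
  · have hS : S = ∅ := Finset.card_eq_zero.1 h0
    subst hS
    simp
  · have hS : S ≠ ∅ := by
      rintro rfl; simp at h0
    rw [if_neg hS, zero_add]
    rcases Nat.even_or_odd S.card with he | ho
    · have h2' : 2 ≤ S.card := by
        rcases he with ⟨k, hk⟩; omega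
      exact mul_le_mul_of_nonneg_right (amgm S ρ hρ h2') (sq_nonneg _)
    · rw [odd_zero g hg S ho]
      simp

theorem main : Pool.Agent.N404.KL.S_FOUR := by
  intro J _ _ g ρ hg hρ
  exact main0 J g ρ hg hρ

end Pool.Agent.N401.KLFOUR
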