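import Pool.Agent.N585.LB.Defs

/-!
# LB/1: facts about the order type of the first uncountable ordinal (helper401)
-/

namespace Pool.Agent.N401.LBomega

open Cardinal Set Pool.Agent.N585.LB

universe u

theorem iio_countable (w : O1.{u}) : (Iio w).Countable := by
  rw [Cardinal.countable_iff_lt_aleph_one]
  exact Cardinal.mk_Iio_toType_ord_lt w

theorem card_O1 : #(O1.{u}) = ℵ₁ := Cardinal.mk_ord_toType _

theorem not_countable : ¬ Countable O1.{u} := by
  intro h
  have h1 := (Cardinal.mk_le_aleph0_iff (α := O1.{u})).2 h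
  rw [card_O1] at h1
  exact absurd h1 (not_le.2 Cardinal.aleph0_lt_aleph_one)

/-- recursion -/
theorem rec1 (P : Type u) [LinearOrder P] (φ : P → P)
    (h : ∀ C : Set P, C.Countable → ∃ y, ∀ x ∈ C, x < y) :
    ∃ g : O1.{u} → P, ∀ v w, v < w → φ (g v) < g w := by
  choose bd hbd using h
  have hc : ∀ (w : O1.{u}) (ih : (v : O1.{u}) → v < w → P),
      (range (fun v : Iio w => φ (ih v v.2))).Countable := by
    intro w ih
    have : Countable (Iio w) := (iio_countable w).to_subtype
    exact countable_range _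
  let G : (w : O1.{u}) → ((v : O1.{u}) → v < w → P) → P := fun w ih => bd _ (hc w ih)
  refine ⟨(wellFounded_lt : WellFounded ((· < ·) : O1.{u} → O1.{u} → Prop)).fix G, ?_⟩
  intro v w hvw
  rw [WellFounded.fix_eq _ G w]
  have h1 := hbd _ (hc w fun v _ => (wellFounded_lt : WellFounded
    ((· < ·) : O1.{u} → O1.{u} → Prop)).fix G v)
  exact h1 _ ⟨⟨v, hvw⟩, rfl⟩

theorem bound (C : Set O1.{u}) (hC : C.Countable) : ∃ y, ∀ x ∈ C, x < y := by
  by_contra hcon
  push Not at hcon
  apply not_countable.{u}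
  have h1 : (⋃ x ∈ C, Iic x) = (univ : Set O1.{u}) := by
    rw [eq_univ_iff_forall]
    intro y
    obtain ⟨x, hx, hy⟩ := hcon y
    exact mem_iUnion₂.2 ⟨x, hx, hy⟩
  have h2 : (⋃ x ∈ C, Iic x).Countable := by
    refine hC.biUnion fun x _ => ?_
    rw [← Iio_insert]
    exact (iio_countable x).insert x
  rw [h1] at h2
  exact countable_univ_iff.1 h2

theorem emb1 (P : Type u) [LinearOrder P]
    (h : ∀ C : Set P, C.Countable → ∃ y, ∀ x ∈ C, x < y) : Nonempty (O1.{u} ↪o P) := by
  obtain ⟨g, hg⟩ := rec1 P id h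
  exact ⟨OrderEmbedding.ofStrictMono g fun v w hvw => hg v w hvw⟩

theorem no_family (P : Type u) [LinearOrder P] (hP : CCC P) (a b : O1.{u} → P)
    (h1 : ∀ w, (Ioo (a w) (b w)).Nonempty)
    (h2 : ∀ v w, v < w → Disjoint (Ioo (a v) (b v)) (Ioo (a w) (b w))) : False := by
  have hinj : Function.Injective fun w => (a w, b w) := by
    intro v w hvw
    simp only [Prod.mk.injEq] at hvw
    rcases lt_trichotomy v w with h | h | h
    · have h3 := h2 v w h
      rw [hvw.1, hvw.2, disjoint_self] at h3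
      exact absurd h3 (h1 w).ne_empty
    · exact h
    · have h3 := h2 w v h
      rw [hvw.1, hvw.2, disjoint_self] at h3
      exact absurd h3 (h1 w).ne_empty
  have h3 := hP (range fun w => (a w, b w)) (by rintro _ ⟨w, rfl⟩; exact h1 w) (by
    rintro _ ⟨v, rfl⟩ _ ⟨w, rfl⟩ hne
    rcases lt_trichotomy v w with h | h | h
    · exact h2 v w h
    · exact absurd (by rw [h]) hne
    · exact (h2 w v h).symm)
  apply not_countable.{u}
  have h4 : Countable (range fun w => (a w, b w)) := h3.to_subtype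
  exact (Equiv.ofInjective _ hinj).countable_iff.2 h4

theorem closing (h : ℕ → O1.{u} → O1.{u}) (w : O1.{u}) :
    ∃ α, w < α ∧ ∀ γ, γ < α → ∀ n, h n γ < α := by
  choose bd hbd using bound.{u}
  have hc : ∀ x : O1.{u}, ((fun p : ℕ × O1.{u} => h p.1 p.2) '' ((Set.univ : Set ℕ) ×ˢ Iic x) ∪ {x}).Countable := by
    intro x
    refine Set.Countable.union (Set.Countable.image (Set.Countable.prod countable_univ ?_) _)
      (countable_singleton x)
    rw [← Iio_insert]
    exact (iio_countable x).insert x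
  let a : ℕ → O1.{u} := fun k => Nat.rec w (fun _ x => bd _ (hc x)) k
  have ha0 : a 0 = w := rfl
  have ha : ∀ k, ∀ y ∈ ((fun p : ℕ × O1.{u} => h p.1 p.2) '' ((Set.univ : Set ℕ) ×ˢ Iic (a k)) ∪ {a k}),
      y < a (k + 1) := fun k => hbd _ (hc (a k))
  obtain ⟨y, hy⟩ := bound (range a) (countable_range a)
  have hne : {y : O1.{u} | ∀ k, a k < y}.Nonempty := ⟨y, fun k => hy _ ⟨k, rfl⟩⟩
  obtain ⟨α, hα, hmin⟩ := (wellFounded_lt : WellFounded ((· < ·) : O1.{u} → O1.{u} → Prop)).has_min
    _ hne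
  refine ⟨α, hα 0, fun γ hγ n => ?_⟩
  have h1 : ¬ ∀ k, a k < γ := fun h => hmin γ h hγ
  push Not at h1
  obtain ⟨k, hk⟩ := h1
  refine lt_trans (ha k _ (Or.inl ⟨(n, γ), ⟨mem_univ _, hk⟩, rfl⟩)) (hα (k + 1))

theorem stmOmega : StmOmega.{u} := by
  refine ⟨iio_countable, card_O1, fun P _ h => emb1 P h, ?_, ?_, bound, closing⟩
  · intro P _ h
    obtain ⟨e⟩ := emb1 Pᵒᵈ (fun C hC => by
      obtain ⟨y, hy⟩ := h (OrderDual.toDual ⁻¹' C) (hC.preimage OrderDual.toDual.injective)
      exact ⟨OrderDual.toDual y, fun x hx => hy (OrderDual.ofDual x) hx⟩)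
    exact ⟨e.dual.trans (OrderIso.dualDual P).symm.toOrderEmbedding⟩
  · intro P _ hP
    have hS : ∀ w : O1.{u}, ∃ y, w < y := fun w => by
      obtain ⟨y, hy⟩ := bound {w} (countable_singleton w)
      exact ⟨y, hy w rfl⟩
    choose S hS using hS
    obtain ⟨g, hg⟩ := rec1 O1.{u} (fun w => S (S w)) bound
    constructor
    · rintro ⟨f⟩
      refine no_family P hP (fun w => f (g w)) (fun w => f (S (S (g w)))) (fun w => ?_) ?_
      · exact ⟨f (S (g w)), f.strictMono (hS _), f.strictMono (hS _)⟩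
      · intro v w hvw
        rw [Set.disjoint_left]
        intro z hz hz'
        exact absurd (hz.2.trans (f.strictMono (hg v w hvw))) (not_lt.2 hz'.1.le)
    · rintro ⟨f⟩
      refine no_family P hP (fun w => f (OrderDual.toDual (S (S (g w)))))
        (fun w => f (OrderDual.toDual (g w))) (fun w => ?_) ?_
      · exact ⟨f (OrderDual.toDual (S (g w))), f.strictMono (hS _), f.strictMono (hS _)⟩
      · intro v w hvw
        rw [Set.disjoint_left]
        intro z hz hz'
        have h1 : f (OrderDual.toDual (g w)) < f (OrderDual.toDual (S (S (g v)))) :=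
          f.strictMono (hg v w hvw)
        exact absurd (hz'.2.trans h1) (not_lt.2 hz.1.le)

end Pool.Agent.N401.LBomega
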