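import Mathlib
import Pool.Agent.N604.MW.Stm

set_option autoImplicit false

/-! Project MW (helper604), tasks MASS and LOW. -/

namespace Pool.Agent.N401.MW

open Finset Filter Topology
open Pool.Agent.N604.MW

lemma sin_sq_e (x : ℝ) : Real.sin (Real.pi * x) ^ 2 = 1 / 2 - (e x).re / 2 := by
  have h1 : (e x).re = Real.cos (2 * (Real.pi * x)) := by
    unfold e
    have h2 : (2 * Real.pi * x * Complex.I : ℂ) = ((2 * (Real.pi * x) : ℝ) : ℂ) * Complex.I := by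
      push_cast
      ring
    rw [h2, Complex.exp_ofReal_mul_I_re]
  rw [h1, Real.cos_two_mul, Real.sin_sq]
  ring

/-- the mean of the weight on an interval -/
lemma mean (h : S_POINT) (d : ℕ) (c b : ℝ) (θ : Fin d → ℝ) (hd : 1 ≤ d) (hc : 0 < c) (hD : Dio d c θ) (C0 : ℕ) :
    ∃ σ : ℝ, 0 < σ ∧ σ ≤ 1 ∧ ∃ X0 : ℕ, 1 ≤ X0 ∧ ∀ X A L : ℕ, X0 ≤ X → A + L ≤ C0 * X →
      (L : ℝ) / 2 - (X : ℝ) ^ (1 - σ) / 2 ≤
        ∑ n ∈ range L, Real.sin (Real.pi * PP d c b θ ((A + n : ℕ) : ℝ)) ^ 2 := by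
  obtain ⟨σ, hσ, X0, h0⟩ := h d c b θ hd hc hD C0 (1 / 2) (by norm_num)
  refine ⟨min σ 1, lt_min hσ one_pos, min_le_right _ _, max X0 1, le_max_right _ _, fun X A L hX hA => ?_⟩
  have hX1 : 1 ≤ X := (le_max_right _ _).trans hX
  have hX1r : (1 : ℝ) ≤ X := by exact_mod_cast hX1
  have h1 := h0 X A L ((le_max_left _ _).trans hX) hA 1 (by
    rw [abs_one]
    apply Real.rpow_le_one_of_one_le_of_nonpos hX1r
    have : (0 : ℝ) ≤ d := Nat.cast_nonneg _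
    linarith) (by
    rw [abs_one]
    exact Real.one_le_rpow hX1r hσ.le)
  simp only [one_mul] at h1
  have h2 : (X : ℝ) ^ (1 - σ) ≤ (X : ℝ) ^ (1 - min σ 1) := by
    apply Real.rpow_le_rpow_of_exponent_le hX1r
    linarith [min_le_left σ 1]
  have h3 : (∑ n ∈ range L, e (PP d c b θ ((A + n : ℕ) : ℝ))).re ≤ (X : ℝ) ^ (1 - min σ 1) :=
    ((Complex.re_le_norm _).trans h1).trans h2
  rw [Complex.re_sum] at h3
  simp only [sin_sq_e]
  rw [sum_sub_distrib, sum_const, card_range, nsmul_eq_mul, ← sum_div]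
  linarith

lemma ev_rpow (σ K : ℝ) (hσ : 0 < σ) : ∃ X0 : ℕ, 1 ≤ X0 ∧ ∀ X : ℕ, X0 ≤ X → K ≤ (X : ℝ) ^ σ := by
  have h1 : Tendsto (fun n : ℕ => (n : ℝ) ^ σ) atTop atTop :=
    (tendsto_rpow_atTop hσ).comp tendsto_natCast_atTop_atTop
  obtain ⟨X0, h0⟩ := eventually_atTop.1 (h1.eventually_ge_atTop K)
  exact ⟨max X0 1, le_max_right _ _, fun X hX => h0 X ((le_max_left _ _).trans hX)⟩

theorem mass (h : S_POINT) : S_MASS := by
  intro d c b θ hd hc hD C0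
  obtain ⟨σ, hσ, hσ1, X0, hX0, h0⟩ := mean h d c b θ hd hc hD (C0 + 2)
  obtain ⟨X1, hX1, h1⟩ := ev_rpow σ 2 hσ
  refine ⟨max X0 X1, fun X A hX hA => ?_⟩
  have hXa : X0 ≤ X := (le_max_left _ _).trans hX
  have hXb : X1 ≤ X := (le_max_right _ _).trans hX
  have hXr : (1 : ℝ) ≤ X := by exact_mod_cast hX0.trans hXa
  have h2 := h0 X A (X + 1) hXa (by nlinarith)
  have h3 : ∑ n ∈ Icc A (A + X), Real.sin (Real.pi * PP d c b θ n) ^ 2 =
      ∑ n ∈ range (X + 1), Real.sin (Real.pi * PP d c b θ ((A + n : ℕ) : ℝ)) ^ 2 := by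
    have h4 : Icc A (A + X) = Ico A (A + (X + 1)) := by
      ext n
      simp only [mem_Icc, mem_Ico]
      omega
    rw [h4, sum_Ico_eq_sum_range]
    have h5 : A + (X + 1) - A = X + 1 := by omega
    rw [h5]
  rw [h3]
  have h4 : 2 * (X : ℝ) ^ (1 - σ) ≤ X := by
    have h5 := h1 X hXb
    have h6 : (X : ℝ) ^ (1 - σ) * (X : ℝ) ^ σ = X := by
      rw [← Real.rpow_add (by linarith)]
      norm_num
    have h7 : 0 ≤ (X : ℝ) ^ (1 - σ) := Real.rpow_nonneg (by linarith) _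
    nlinarith
  push_cast at h2
  push_cast
  linarith

/-- the Lipschitz constant of the polynomial -/
noncomputable def LC (d : ℕ) (c : ℝ) (θ : Fin d → ℝ) : ℝ :=
  |c| * (d + 1) + ∑ j : Fin d, |θ j| * ((j : ℕ) + 1)

lemma pow_lip {x y R : ℝ} (hx : 0 ≤ x) (hxy : x ≤ y) (hy : y ≤ R) (hR : 1 ≤ R) {m d : ℕ} (hm : m ≤ d) :
    |y ^ (m + 1) - x ^ (m + 1)| ≤ (m + 1) * R ^ d * (y - x) := by
  have h1 := abs_pow_sub_pow_le y x (m + 1)
  rw [abs_of_nonneg (sub_nonneg.2 hxy), abs_of_nonneg (hx.trans hxy), abs_of_nonneg hx, max_eq_left hxy] at h1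
  refine h1.trans ?_
  rw [Nat.add_sub_cancel]
  have h2 : y ^ m ≤ R ^ d :=
    (pow_le_pow_left₀ (hx.trans hxy) hy m).trans (pow_le_pow_right₀ hR hm)
  have h3 : 0 ≤ y - x := sub_nonneg.2 hxy
  push_cast
  have h4 : (y - x) * ((m : ℝ) + 1) * y ^ m ≤ (y - x) * ((m : ℝ) + 1) * R ^ d :=
    mul_le_mul_of_nonneg_left h2 (by positivity)
  linarith

lemma PP_lip (d : ℕ) (c b : ℝ) (θ : Fin d → ℝ) {x y R : ℝ} (hx : 0 ≤ x) (hxy : x ≤ y) (hy : y ≤ R)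
    (hR : 1 ≤ R) : |PP d c b θ y - PP d c b θ x| ≤ LC d c θ * R ^ d * (y - x) := by
  have e1 : PP d c b θ y - PP d c b θ x =
      c * (y ^ (d + 1) - x ^ (d + 1)) + ∑ j : Fin d, θ j * (y ^ ((j : ℕ) + 1) - x ^ ((j : ℕ) + 1)) := by
    unfold PP
    have e2 : ∑ j : Fin d, θ j * (y ^ ((j : ℕ) + 1) - x ^ ((j : ℕ) + 1)) =
        ∑ j : Fin d, θ j * y ^ ((j : ℕ) + 1) - ∑ j : Fin d, θ j * x ^ ((j : ℕ) + 1) := by
      rw [← sum_sub_distrib]
      exact sum_congr rfl fun j _ => by ring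
    rw [e2]
    ring
  rw [e1]
  refine (abs_add_le _ _).trans ?_
  have h1 : |c * (y ^ (d + 1) - x ^ (d + 1))| ≤ |c| * (d + 1) * (R ^ d * (y - x)) := by
    rw [abs_mul]
    have := mul_le_mul_of_nonneg_left (pow_lip hx hxy hy hR (le_refl d)) (abs_nonneg c)
    linarith
  have h2 : |∑ j : Fin d, θ j * (y ^ ((j : ℕ) + 1) - x ^ ((j : ℕ) + 1))| ≤
      ∑ j : Fin d, |θ j| * ((j : ℕ) + 1) * (R ^ d * (y - x)) := by
    refine (abs_sum_le_sum_abs _ _).trans (sum_le_sum fun j _ => ?_)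
    rw [abs_mul]
    have := mul_le_mul_of_nonneg_left (pow_lip hx hxy hy hR j.2.le) (abs_nonneg (θ j))
    linarith
  rw [← sum_mul] at h2
  unfold LC
  have e3 : (|c| * (d + 1) + ∑ j : Fin d, |θ j| * ((j : ℕ) + 1)) * R ^ d * (y - x) =
      |c| * (d + 1) * (R ^ d * (y - x)) + (∑ j : Fin d, |θ j| * ((j : ℕ) + 1)) * (R ^ d * (y - x)) := by
    ring
  rw [e3]
  exact add_le_add h1 h2

lemma PP_cont (d : ℕ) (c b : ℝ) (θ : Fin d → ℝ) : Continuous (PP d c b θ) := by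
  unfold PP
  fun_prop

/-- lower bound for the values of the polynomial -/
lemma PP_low (d : ℕ) (c b : ℝ) (θ : Fin d → ℝ) {x : ℝ} (hx : 1 ≤ x) :
    c * x ^ (d + 1) - (∑ j : Fin d, |θ j| + |b|) * x ^ d ≤ PP d c b θ x := by
  unfold PP
  have hp : 1 ≤ x ^ d := one_le_pow₀ hx
  have h1 : -((∑ j : Fin d, |θ j|) * x ^ d) ≤ ∑ j : Fin d, θ j * x ^ ((j : ℕ) + 1) := by
    rw [sum_mul, ← sum_neg_distrib]
    refine sum_le_sum fun j _ => ?_
    have h2 : x ^ ((j : ℕ) + 1) ≤ x ^ d := pow_le_pow_right₀ hx j.2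
    have h3 : 0 ≤ x ^ ((j : ℕ) + 1) := by positivity
    have h4 : |θ j * x ^ ((j : ℕ) + 1)| ≤ |θ j| * x ^ d := by
      rw [abs_mul, abs_of_nonneg h3]
      exact mul_le_mul_of_nonneg_left h2 (abs_nonneg _)
    linarith [neg_abs_le (θ j * x ^ ((j : ℕ) + 1))]
  have h5 : -(|b| * x ^ d) ≤ b := by
    have h6 := neg_abs_le b
    have h7 : |b| * 1 ≤ |b| * x ^ d := mul_le_mul_of_nonneg_left hp (abs_nonneg b)
    linarith
  linarith

theorem low (h : S_POINT) : S_LOW := by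
  intro d c b θ hd hc hD C1 hC1
  -- the constant `C0`
  obtain ⟨C0, hC0⟩ : ∃ C0 : ℕ, 2 * (C1 + 1) / c ≤ C0 := exists_nat_ge _
  have hC0c : 2 * (C1 + 1) ≤ c * C0 := by
    rw [div_le_iff₀ hc] at hC0
    linarith
  have hC01 : 1 ≤ C0 := by
    rcases Nat.eq_zero_or_pos C0 with h1 | h1
    · rw [h1] at hC0c
      norm_num at hC0c
      linarith
    · exact h1
  have hC01r : (1 : ℝ) ≤ C0 := by exact_mod_cast hC01
  obtain ⟨σ₁, hσ₁, hσ₁1, X0, hX0, h0⟩ := mean h d c b θ hd hc hD (C0 + 1)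
  obtain ⟨C3, hC3⟩ : ∃ C3 : ℝ, C3 = LC d c θ * C0 ^ d := ⟨_, rfl⟩
  have hLC : 0 < LC d c θ := by
    unfold LC
    have h1 : 0 < |c| := abs_pos.2 hc.ne'
    have h2 : 0 ≤ ∑ j : Fin d, |θ j| * (((j : ℕ) : ℝ) + 1) := sum_nonneg fun j _ => by positivity
    positivity
  have hC3p : 0 < C3 := by rw [hC3]; positivity
  obtain ⟨X1, hX1, h1⟩ := ev_rpow (σ₁ / 2) (4 * C3) (by positivity)
  obtain ⟨X2, hX2⟩ : ∃ X2 : ℕ, |b| ≤ X2 := exists_nat_ge _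
  obtain ⟨X3, hX3⟩ : ∃ X3 : ℕ, 2 * (∑ j : Fin d, |θ j| + |b|) / c ≤ X3 := exists_nat_ge _
  refine ⟨C0, 1 / (4 * C3), σ₁ / 2, by positivity, by positivity, max (max X0 X1) (max X2 X3),
    fun X W M hX hM1 hM2 hW1 hW2 => ?_⟩
  have hXa : X0 ≤ X := ((le_max_left _ _).trans (le_max_left _ _)).trans hX
  have hXb : X1 ≤ X := ((le_max_right _ _).trans (le_max_left _ _)).trans hX
  have hXc : X2 ≤ X := ((le_max_left _ _).trans (le_max_right _ _)).trans hX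
  have hXd : X3 ≤ X := ((le_max_right _ _).trans (le_max_right _ _)).trans hX
  have hX1' : 1 ≤ X := hX0.trans hXa
  have hXr : (1 : ℝ) ≤ X := by exact_mod_cast hX1'
  have hXp : (0 : ℝ) < X := by linarith
  -- the end of the interval
  obtain ⟨R, hR⟩ : ∃ R : ℝ, R = C0 * X := ⟨_, rfl⟩
  have hR1 : 1 ≤ R := by rw [hR]; nlinarith
  have hPR : (M : ℝ) + W ≤ PP d c b θ R := by
    refine le_trans ?_ (PP_low d c b θ hR1)
    have hXc3 : 2 * (∑ j : Fin d, |θ j| + |b|) ≤ c * R := by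
      have h2 : 2 * (∑ j : Fin d, |θ j| + |b|) / c ≤ X := hX3.trans (by exact_mod_cast hXd)
      rw [div_le_iff₀ hc] at h2
      have h3 : (X : ℝ) ≤ R := by rw [hR]; nlinarith
      nlinarith
    have hRd : 0 < R ^ d := by positivity
    have h3 : (∑ j : Fin d, |θ j| + |b|) * R ^ d ≤ c * R / 2 * R ^ d :=
      mul_le_mul_of_nonneg_right (by linarith) hRd.le
    have h4 : c * R / 2 * R ^ d = c * R ^ (d + 1) / 2 := by ring
    have h5 : (C1 + 1) * (X : ℝ) ^ (d + 1) ≤ c * R ^ (d + 1) / 2 := by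
      have h6 : R ^ (d + 1) = (C0 : ℝ) ^ (d + 1) * (X : ℝ) ^ (d + 1) := by rw [hR, mul_pow]
      rw [h6]
      have h7 : (C0 : ℝ) ≤ (C0 : ℝ) ^ (d + 1) := le_self_pow₀ hC01r (by omega)
      have h8 : C1 + 1 ≤ c * (C0 : ℝ) ^ (d + 1) / 2 := by nlinarith
      have h9 : 0 < (X : ℝ) ^ (d + 1) := by positivity
      nlinarith
    linarith
  have hb : PP d c b θ 0 ≤ M := by
    have h2 : PP d c b θ 0 = b := by
      unfold PP
      simp
    rw [h2]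
    have h3 : (X : ℝ) ≤ (X : ℝ) ^ (d + 1) := le_self_pow₀ hXr (by omega)
    have h4 : |b| ≤ X := hX2.trans (by exact_mod_cast hXc)
    linarith [le_abs_self b]
  -- the last point with value at most `M`
  have hW0 : (0 : ℝ) ≤ W := Nat.cast_nonneg _
  have hcont := PP_cont d c b θ
  obtain ⟨y₁, hy₁, hy₁'⟩ := (isCompact_Icc.inter_right (isClosed_le hcont continuous_const) :
    IsCompact (Set.Icc (0 : ℝ) R ∩ {y | PP d c b θ y ≤ (M : ℝ)})).exists_isGreatest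
    ⟨0, ⟨le_refl _, by linarith⟩, hb⟩
  have hy₁I := hy₁.1
  have hy₁M : PP d c b θ y₁ ≤ M := hy₁.2
  have hlast : ∀ y, y₁ < y → y ≤ R → (M : ℝ) < PP d c b θ y := by
    intro y h2 h3
    by_contra hcon
    push Not at hcon
    have h4 := hy₁' ⟨⟨hy₁I.1.trans h2.le, h3⟩, hcon⟩
    linarith
  -- the first point with value at least `M + W`
  obtain ⟨y₂, hy₂, hy₂'⟩ := (isCompact_Icc.inter_right (isClosed_le continuous_const hcont) :
    IsCompact (Set.Icc y₁ R ∩ {y | (M : ℝ) + W ≤ PP d c b θ y})).exists_isLeast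
    ⟨R, ⟨hy₁I.2, le_refl _⟩, hPR⟩
  have hy₂I := hy₂.1
  have hy₂M : (M : ℝ) + W ≤ PP d c b θ y₂ := hy₂.2
  have hfirst : ∀ y, y₁ ≤ y → y < y₂ → PP d c b θ y < (M : ℝ) + W := by
    intro y h2 h3
    by_contra hcon
    push Not at hcon
    have h4 := hy₂' ⟨⟨h2, h3.le.trans hy₂I.2⟩, hcon⟩
    linarith
  -- the length of the interval
  have hlen : (W : ℝ) ≤ C3 * (X : ℝ) ^ d * (y₂ - y₁) := by
    have h2 := (le_abs_self _).trans (PP_lip d c b θ hy₁I.1 hy₂I.1 hy₂I.2 hR1)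
    have h3 : LC d c θ * R ^ d = C3 * (X : ℝ) ^ d := by
      rw [hR, hC3, mul_pow]
      ring
    rw [h3] at h2
    linarith
  -- the integers of the interval
  obtain ⟨A', hA'⟩ : ∃ A' : ℕ, A' = ⌊y₁⌋₊ + 1 := ⟨_, rfl⟩
  obtain ⟨L', hL'⟩ : ∃ L' : ℕ, L' = ⌈y₂⌉₊ - A' := ⟨_, rfl⟩
  have hceil : ⌈y₂⌉₊ ≤ C0 * X := by
    apply Nat.ceil_le.2
    rw [hR] at hy₂I
    push_cast
    exact hy₂I.2
  have hfl : ⌊y₁⌋₊ ≤ C0 * X := by
    have h2 : (⌊y₁⌋₊ : ℝ) ≤ y₁ := Nat.floor_le hy₁I.1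
    have h3 : (⌊y₁⌋₊ : ℝ) ≤ ((C0 * X : ℕ) : ℝ) := by
      push_cast
      rw [← hR]
      exact h2.trans hy₁I.2
    exact_mod_cast h3
  have hAL : A' + L' ≤ (C0 + 1) * X := by
    have h2 : (C0 + 1) * X = C0 * X + X := by ring
    rw [h2]
    omega
  have hL'r : y₂ - y₁ - 1 ≤ L' := by
    have h2 : (⌈y₂⌉₊ : ℝ) ≤ (L' : ℝ) + A' := by
      have : ⌈y₂⌉₊ ≤ L' + A' := by omega
      exact_mod_cast this
    have h3 := Nat.le_ceil y₂
    have h4 : (⌊y₁⌋₊ : ℝ) ≤ y₁ := Nat.floor_le hy₁I.1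
    have h5 : (A' : ℝ) = (⌊y₁⌋₊ : ℝ) + 1 := by rw [hA']; push_cast; ring
    linarith
  have h2 := h0 X A' L' hXa hAL
  -- the sum over the interval is part of the sum
  have h3 : ∑ n ∈ range L', Real.sin (Real.pi * PP d c b θ ((A' + n : ℕ) : ℝ)) ^ 2 ≤
      ∑ l ∈ (range (C0 * X)).filter
      (fun l : ℕ => 0 < l ∧ M ≤ ⌊PP d c b θ (l : ℝ)⌋ ∧ ⌊PP d c b θ (l : ℝ)⌋ < M + W),
        Real.sin (Real.pi * PP d c b θ (l : ℝ)) ^ 2 := by
    have e1 : ∑ n ∈ range L', Real.sin (Real.pi * PP d c b θ ((A' + n : ℕ) : ℝ)) ^ 2 =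
        ∑ l ∈ (range L').image (fun n => A' + n), Real.sin (Real.pi * PP d c b θ (l : ℝ)) ^ 2 := by
      rw [sum_image]
      intro x _ y _ hxy
      simpa using hxy
    rw [e1]
    refine sum_le_sum_of_subset_of_nonneg ?_ (fun _ _ _ => sq_nonneg _)
    intro l hl
    rw [mem_image] at hl
    obtain ⟨n, hn, rfl⟩ := hl
    rw [mem_range] at hn
    have h4 : A' + n < ⌈y₂⌉₊ := by omega
    have h5 : ((A' + n : ℕ) : ℝ) < y₂ := Nat.lt_ceil.1 h4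
    have h6 : y₁ < ((A' + n : ℕ) : ℝ) := by
      have h7 := Nat.lt_floor_add_one y₁
      have h8 : (A' : ℝ) = (⌊y₁⌋₊ : ℝ) + 1 := by rw [hA']; push_cast; ring
      push_cast
      have : (0 : ℝ) ≤ n := Nat.cast_nonneg _
      linarith
    rw [mem_filter, mem_range]
    refine ⟨by omega, by omega, ?_, ?_⟩
    · exact Int.le_floor.2 (hlast _ h6 (h5.le.trans hy₂I.2)).le
    · rw [Int.floor_lt]
      push_cast
      have h9 := hfirst _ h6.le h5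
      push_cast at h9
      exact h9
  refine le_trans ?_ h3
  refine le_trans ?_ h2
  -- the inequality
  have hXd0 : 0 < (X : ℝ) ^ d := by positivity
  have h4 : (X : ℝ) ^ (1 - σ₁ / 2) ≤ C3 * (y₂ - y₁) := by
    have h5 : (X : ℝ) ^ ((d : ℝ) + 1 - σ₁ / 2) = (X : ℝ) ^ d * (X : ℝ) ^ (1 - σ₁ / 2) := by
      rw [← Real.rpow_natCast, ← Real.rpow_add hXp]
      congr 1
      ring
    rw [h5] at hW1
    have h6 : (X : ℝ) ^ d * (X : ℝ) ^ (1 - σ₁ / 2) ≤ (X : ℝ) ^ d * (C3 * (y₂ - y₁)) := by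
      refine hW1.trans (hlen.trans (le_of_eq ?_))
      ring
    exact le_of_mul_le_mul_left h6 hXd0
  have h5 : 4 * C3 * (X : ℝ) ^ (1 - σ₁) ≤ (X : ℝ) ^ (1 - σ₁ / 2) := by
    have h6 : (X : ℝ) ^ (1 - σ₁ / 2) = (X : ℝ) ^ (σ₁ / 2) * (X : ℝ) ^ (1 - σ₁) := by
      rw [← Real.rpow_add hXp]
      congr 1
      ring
    rw [h6]
    exact mul_le_mul_of_nonneg_right (h1 X hXb) (Real.rpow_nonneg hXp.le _)
  have h6 : 1 ≤ (X : ℝ) ^ (1 - σ₁) := Real.one_le_rpow hXr (by linarith)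
  have h7 : 4 * (X : ℝ) ^ (1 - σ₁) ≤ y₂ - y₁ := by
    have h8 : C3 * (4 * (X : ℝ) ^ (1 - σ₁)) ≤ C3 * (y₂ - y₁) := by linarith
    exact le_of_mul_le_mul_left h8 hC3p
  have h8 : 1 / (4 * C3) * W / (X : ℝ) ^ d ≤ (y₂ - y₁) / 4 := by
    rw [div_le_div_iff₀ hXd0 (by norm_num)]
    have h9 : 1 / (4 * C3) * (W : ℝ) * 4 = W / C3 := by
      field_simp
    rw [h9, div_le_iff₀ hC3p]
    linarith
  linarith

end Pool.Agent.N401.MW
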