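import Pool.Agent.N657.QR.Stm

set_option autoImplicit false

/-!
# QR/EIG (helper401): the eigenvalue equation and the decay of ground states
-/

namespace Pool.Agent.N401.QREIG

open Filter Topology Pool.Agent.N657.QR

section

variable {V : Type} [Fintype V] [DecidableEq V]

theorem hp_hp (x y : V) (m : V → ℤ) : hp y x (hp x y m) = m := by
  unfold hp
  abel

theorem hp_eq_iff (x y : V) (m n : V → ℤ) : hp x y m = n ↔ m = hp y x n := by
  constructor
  · intro h
    rw [← h, hp_hp]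
  · intro h
    rw [h, hp_hp]

theorem tot_hp (x y : V) (n : V → ℤ) : tot (hp x y n) = tot n := by
  unfold tot hp dl
  simp only [Pi.sub_apply, Pi.add_apply, Finset.sum_sub_distrib, Finset.sum_add_distrib]
  rw [Finset.sum_pi_single', Finset.sum_pi_single']
  simp

theorem hp_inj (x y : V) : Function.Injective (hp x y : (V → ℤ) → V → ℤ) := by
  intro m m' h
  rw [← hp_hp x y m, h, hp_hp]

/-- the indicator -/
noncomputable def ei (n : V → ℤ) (m : V → ℤ) : ℝ := if m = n then 1 else 0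

theorem lin0 {B C : ℝ} (h : ∀ t : ℝ, 0 ≤ t * B + t ^ 2 * C) : B = 0 := by
  by_contra hB
  have h1 := h (-B / (2 * (|C| + 1)))
  have hC : C ≤ |C| := le_abs_self C
  have h2 : 0 < |C| + 1 := by positivity
  have h3 : 0 < B ^ 2 := by positivity
  have h4 : -B / (2 * (|C| + 1)) * B + (-B / (2 * (|C| + 1))) ^ 2 * C =
      B ^ 2 * (C - 2 * (|C| + 1)) / (4 * (|C| + 1) ^ 2) := by
    field_simp
    ring
  rw [h4] at h1
  have h5 : B ^ 2 * (C - 2 * (|C| + 1)) < 0 :=
    mul_neg_of_pos_of_neg h3 (by have := abs_nonneg C; linarith)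
  have h6 : B ^ 2 * (C - 2 * (|C| + 1)) / (4 * (|C| + 1) ^ 2) < 0 :=
    div_neg_of_neg_of_pos h5 (by positivity)
  linarith

theorem sqt (Φ : (V → ℤ) → ℝ) (n : V → ℤ) (t : ℝ) (m : V → ℤ) :
    (Φ m + t * ei n m) ^ 2 = Φ m ^ 2 + if m = n then (2 * t * Φ n + t ^ 2) else 0 := by
  unfold ei
  by_cases h : m = n
  · subst h
    simp only [if_true]
    ring
  · rw [if_neg h, if_neg h]
    ring

theorem nr_t {Φ : (V → ℤ) → ℝ} (hs : Summable (fun n => Φ n ^ 2)) (n : V → ℤ) (t : ℝ) :
    Summable (fun m => (Φ m + t * ei n m) ^ 2) ∧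
      nr (fun m => Φ m + t * ei n m) = nr Φ + (2 * t * Φ n + t ^ 2) := by
  have h1 : (fun m => (Φ m + t * ei n m) ^ 2) =
      fun m => Φ m ^ 2 + if m = n then (2 * t * Φ n + t ^ 2) else 0 := funext (sqt Φ n t)
  have h2 := hasSum_ite_eq n (2 * t * Φ n + t ^ 2)
  refine ⟨?_, ?_⟩
  · rw [h1]
    exact hs.add h2.summable
  · unfold nr
    rw [h1, hs.tsum_add h2.summable, h2.tsum_eq]

theorem wt_t {Φ : (V → ℤ) → ℝ} (g : (V → ℤ) → ℝ) (hs : Summable (fun n => g n * Φ n ^ 2))
    (n : V → ℤ) (t : ℝ) :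
    Summable (fun m => g m * (Φ m + t * ei n m) ^ 2) ∧
      ∑' m, g m * (Φ m + t * ei n m) ^ 2 =
        ∑' m, g m * Φ m ^ 2 + g n * (2 * t * Φ n + t ^ 2) := by
  have h1 : (fun m => g m * (Φ m + t * ei n m) ^ 2) =
      fun m => g m * Φ m ^ 2 + if m = n then g n * (2 * t * Φ n + t ^ 2) else 0 := by
    funext m
    rw [sqt Φ n t m]
    by_cases h : m = n
    · subst h
      simp only [if_true]
      ring
    · rw [if_neg h, if_neg h]
      ring
  have h2 := hasSum_ite_eq n (g n * (2 * t * Φ n + t ^ 2))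
  refine ⟨?_, ?_⟩
  · rw [h1]
    exact hs.add h2.summable
  · rw [h1, hs.tsum_add h2.summable, h2.tsum_eq]

theorem cr_t {Φ : (V → ℤ) → ℝ} (x y : V) (hs : Summable (fun n => Φ (hp x y n) * Φ n))
    (n : V → ℤ) (t : ℝ) :
    cr x y (fun m => Φ m + t * ei n m) =
      cr x y Φ + t * (Φ (hp x y n) + Φ (hp y x n)) + t ^ 2 * ei n (hp x y n) := by
  unfold cr
  have h1 : (fun m => (Φ (hp x y m) + t * ei n (hp x y m)) * (Φ m + t * ei n m)) =
      fun m => Φ (hp x y m) * Φ m + (if m = n then t * Φ (hp x y n) + t ^ 2 * ei n (hp x y n)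
        else 0) + (if m = hp y x n then t * Φ (hp y x n) else 0) := by
    funext m
    have e1 : ei n (hp x y m) = if m = hp y x n then 1 else 0 := by
      unfold ei
      by_cases h : m = hp y x n
      · rw [if_pos h, if_pos ((hp_eq_iff x y m n).2 h)]
      · rw [if_neg h, if_neg (fun h' => h ((hp_eq_iff x y m n).1 h'))]
    have e2 : ei n m = if m = n then 1 else 0 := rfl
    by_cases h2 : m = n
    · subst h2
      rw [e2, if_pos rfl, if_pos rfl, e1]
      by_cases h3 : m = hp y x m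
      · rw [if_pos h3, if_pos h3]
        rw [← h3]
        ring
      · rw [if_neg h3, if_neg h3]
        ring
    · rw [e2, if_neg h2, if_neg h2, e1]
      by_cases h3 : m = hp y x n
      · rw [if_pos h3, if_pos h3, ← h3]
        ring
      · rw [if_neg h3, if_neg h3]
        ring
  have h2 := hasSum_ite_eq n (t * Φ (hp x y n) + t ^ 2 * ei n (hp x y n))
  have h3 := hasSum_ite_eq (hp y x n) (t * Φ (hp y x n))
  rw [h1, (hs.add h2.summable).tsum_add h3.summable, hs.tsum_add h2.summable, h2.tsum_eq,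
    h3.tsum_eq]
  ring

theorem s2_add {f g : (V → ℤ) → ℝ} (hf : Summable (fun n => f n ^ 2))
    (hg : Summable (fun n => g n ^ 2)) : Summable (fun n => (f n + g n) ^ 2) := by
  refine Summable.of_nonneg_of_le (fun n => sq_nonneg _) (fun n => ?_)
    ((hf.mul_left 2).add (hg.mul_left 2))
  nlinarith [sq_nonneg (f n - g n)]

theorem s2_smul {f : (V → ℤ) → ℝ} (c : ℝ) (hf : Summable (fun n => f n ^ 2)) :
    Summable (fun n => (c * f n) ^ 2) := by
  have : (fun n => (c * f n) ^ 2) = fun n => c ^ 2 * f n ^ 2 := by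
    funext n; ring
  rw [this]
  exact hf.mul_left _

theorem s2_sum {ι : Type} (s : Finset ι) (f : ι → (V → ℤ) → ℝ)
    (hf : ∀ i ∈ s, Summable (fun n => f i n ^ 2)) : Summable (fun n => (∑ i ∈ s, f i n) ^ 2) := by
  classical
  induction s using Finset.induction_on with
  | empty => simpa using summable_zero
  | insert a s ha ih =>
    have h1 := s2_add (hf a (Finset.mem_insert_self a s))
      (ih fun i hi => hf i (Finset.mem_insert_of_mem hi))
    simp only [Finset.sum_insert ha]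
    exact h1

end

theorem main (hB : S_BAS) (hL : S_LB) : S_EIG := by
  intro V _ _ _ K w ν N Φ hK hw hG
  obtain ⟨hFE, hSec, hnr, hFF⟩ := hG
  have hKs : K.PosSemidef := hK.posSemidef
  have heq : ∀ n, (pot K ν n - en K w ν N) * Φ n
        = (∑ x, ∑ y, w x y * (Φ (hp x y n) + Φ (hp y x n))) / 2 := by
    intro n
    by_cases hn : tot n = N
    · have hq : ∀ t : ℝ, 0 ≤ t * (2 * pot K ν n * Φ n -
          ∑ x, ∑ y, w x y * (Φ (hp x y n) + Φ (hp y x n)) - 2 * en K w ν N * Φ n) +
          t ^ 2 * (pot K ν n - (∑ x, ∑ y, w x y * ei n (hp x y n)) - en K w ν N) := by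
        intro t
        have hFEt : FE (fun m => Φ m + t * ei n m) :=
          ⟨(nr_t hFE.1 n t).1, (wt_t Pool.Agent.N657.QR.sq hFE.2 n t).1⟩
        have hSect : Sec N (fun m => Φ m + t * ei n m) := by
          intro m hm
          by_cases h : m = n
          · rw [h, hn]
          · apply hSec
            intro h0
            apply hm
            simp [h0, ei, h]
        have h1 := hL K w ν N _ hKs hw hFEt hSect
        rw [(nr_t hFE.1 n t).2, hnr] at h1
        have h2 : FF K w ν (fun m => Φ m + t * ei n m) = FF K w ν Φ +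
            (t * (2 * pot K ν n * Φ n - ∑ x, ∑ y, w x y * (Φ (hp x y n) + Φ (hp y x n))) +
              t ^ 2 * (pot K ν n - (∑ x, ∑ y, w x y * ei n (hp x y n)))) := by
          unfold FF
          have h3 : po K ν (fun m => Φ m + t * ei n m) =
              po K ν Φ + pot K ν n * (2 * t * Φ n + t ^ 2) :=
            (wt_t (pot K ν) (hB.posum K ν Φ hFE) n t).2
          have h4 : ∑ x, ∑ y, w x y * cr x y (fun m => Φ m + t * ei n m) =
              (∑ x, ∑ y, w x y * cr x y Φ) +
                t * (∑ x, ∑ y, w x y * (Φ (hp x y n) + Φ (hp y x n))) +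
                t ^ 2 * (∑ x, ∑ y, w x y * ei n (hp x y n)) := by
            simp only [Finset.mul_sum, ← Finset.sum_add_distrib]
            refine Finset.sum_congr rfl fun x _ => Finset.sum_congr rfl fun y _ => ?_
            rw [cr_t x y (hB.crsum x y Φ hFE.1) n t]
            ring
          rw [h3, h4]
          ring
        rw [h2, hFF] at h1
        nlinarith
      have h5 := lin0 hq
      linarith
    · have h0 : Φ n = 0 := by
        by_contra h
        exact hn (hSec n h)
      have h1 : ∀ x y, Φ (hp x y n) = 0 := by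
        intro x y
        by_contra h
        have := hSec _ h
        rw [tot_hp] at this
        exact hn this
      simp only [h0, h1, add_zero, mul_zero, Finset.sum_const_zero, zero_div]
  refine ⟨heq, ?_⟩
  obtain ⟨κ, C, hκ, hlow⟩ := hB.potlow K ν hK
  have hR : Summable (fun n => (pot K ν n * Φ n) ^ 2) := by
    have h1 : ∀ n, pot K ν n * Φ n = en K w ν N * Φ n +
        (1 / 2) * ∑ x, ∑ y, w x y * (Φ (hp x y n) + Φ (hp y x n)) := by
      intro n
      have := heq n
      linarith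
    simp only [h1]
    refine s2_add (s2_smul _ hFE.1) (s2_smul _ ?_)
    refine s2_sum Finset.univ (fun x n => ∑ y, w x y * (Φ (hp x y n) + Φ (hp y x n)))
      fun x _ => ?_
    refine s2_sum Finset.univ (fun y n => w x y * (Φ (hp x y n) + Φ (hp y x n))) fun y _ => ?_
    refine s2_smul _ (s2_add ?_ ?_)
    · exact hFE.1.comp_injective (hp_inj x y)
    · exact hFE.1.comp_injective (hp_inj y x)
  have hsum : Summable (fun n => (2 / κ ^ 2) * (pot K ν n * Φ n) ^ 2 +
      (2 * C ^ 2 / κ ^ 2) * Φ n ^ 2) := (hR.mul_left _).add (hFE.1.mul_left _)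
  refine Summable.of_nonneg_of_le (fun n => mul_nonneg (sq_nonneg _) (sq_nonneg _))
    (fun n => ?_) hsum
  have h1 := hlow n
  have h2 := hB.potnn K ν n hKs
  have h3 : 0 ≤ Pool.Agent.N657.QR.sq n := by
    unfold Pool.Agent.N657.QR.sq
    exact Finset.sum_nonneg fun x _ => sq_nonneg _
  have h4 : κ * Pool.Agent.N657.QR.sq n ≤ pot K ν n + |C| := by
    have := le_abs_self C
    linarith
  have h5 : (κ * Pool.Agent.N657.QR.sq n) ^ 2 ≤ 2 * pot K ν n ^ 2 + 2 * C ^ 2 := by
    have h6 : (κ * Pool.Agent.N657.QR.sq n) ^ 2 ≤ (pot K ν n + |C|) ^ 2 :=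
      pow_le_pow_left₀ (by positivity) h4 2
    have h7 : |C| ^ 2 = C ^ 2 := sq_abs C
    nlinarith [sq_nonneg (pot K ν n - |C|)]
  have hκ2 : 0 < κ ^ 2 := by positivity
  have h8 : Pool.Agent.N657.QR.sq n ^ 2 ≤ (2 / κ ^ 2) * pot K ν n ^ 2 + 2 * C ^ 2 / κ ^ 2 := by
    have e1 : (2 / κ ^ 2) * pot K ν n ^ 2 + 2 * C ^ 2 / κ ^ 2 =
        (2 * pot K ν n ^ 2 + 2 * C ^ 2) / κ ^ 2 := by ring
    rw [e1, le_div_iff₀ hκ2]
    calc Pool.Agent.N657.QR.sq n ^ 2 * κ ^ 2 = (κ * Pool.Agent.N657.QR.sq n) ^ 2 := by ring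
      _ ≤ _ := h5
  calc Pool.Agent.N657.QR.sq n ^ 2 * Φ n ^ 2 ≤ ((2 / κ ^ 2) * pot K ν n ^ 2 + 2 * C ^ 2 / κ ^ 2) * Φ n ^ 2 :=
        mul_le_mul_of_nonneg_right h8 (sq_nonneg _)
    _ = _ := by ring

end Pool.Agent.N401.QREIG
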